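import Mathlib

/-!
# Online caching of inelastic contents in a bipartite network: definitions

Users `I`, caches `J`, adjacency `adj i j` (user `i` is adjacent to cache `j`), library `Fin N`,
capacity `C`, horizon `T`.
-/

namespace Pool.Agent.Helper86.Caching

open Finset

/-- `y` is a configuration: cache `j` stores the fraction `y j f ∈ [0,1]` of file `f`,
and at most `C` files in total. -/
def IsConfig {J : Type} (C : ℕ) {N : ℕ} (y : J → Fin N → ℝ) : Prop :=
  (∀ j f, 0 ≤ y j f ∧ y j f ≤ 1) ∧ ∀ j, ∑ f, y j f ≤ C

/-- The inelastic one-slot reward: user `i` requests file `x i` and receives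
`min {1, ∑_{j adjacent to i} y j (x i)}`. -/
noncomputable def reward {I J : Type} [Fintype I] [Fintype J] (adj : I → J → Prop)
    [∀ i j, Decidable (adj i j)] {N : ℕ} (x : I → Fin N) (y : J → Fin N → ℝ) : ℝ :=
  ∑ i, min 1 (∑ j with adj i j, y j (x i))

/-- An online policy: in slot `t` (counted from `0`) it picks a configuration as a function of the
requests in the slots before `t`. -/
structure Policy (I J : Type) (N C : ℕ) where
  /-- the configuration used in slot `t` after the given history -/
  play : (t : ℕ) → (Fin t → I → Fin N) → J → Fin N → ℝ
  /-- it is always a legal configuration -/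
  legal : ∀ t h, IsConfig C (play t h)

/-- The regret of the policy `π` over `T` slots: supremum over all request sequences of the best
fixed configuration's total reward (a supremum over configurations) minus the reward of `π`. -/
noncomputable def regret {I J : Type} [Fintype I] [Fintype J] (adj : I → J → Prop)
    [∀ i j, Decidable (adj i j)] {N C : ℕ} (T : ℕ) (π : Policy I J N C) : ℝ :=
  ⨆ x : Fin T → I → Fin N,
    ((⨆ y : {y : J → Fin N → ℝ // IsConfig C y}, ∑ t, reward adj (x t) y.1) -
      ∑ t : Fin T, reward adj (x t) (π.play t fun s => x ⟨s, s.2.trans t.2⟩))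

/-- The minimax regret `R*_T`: infimum of the regret over all online policies. -/
noncomputable def minimaxRegret {I J : Type} [Fintype I] [Fintype J] (adj : I → J → Prop)
    [∀ i j, Decidable (adj i j)] (N C T : ℕ) : ℝ :=
  ⨅ π : Policy I J N C, regret adj T π

/-- The number of caches adjacent to user `i`. -/
def userDeg {I J : Type} [Fintype J] (adj : I → J → Prop) [∀ i j, Decidable (adj i j)]
    (i : I) : ℕ :=
  #{j | adj i j}

end Pool.Agent.Helper86.Caching
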