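import Mathlib

/-!
Finite product expectations: `E p h` is the expectation of `h` when the coordinates of `ω : κ → A`
are independent and coordinate `k` has the (signed) law `p k`.
-/

namespace Pool.Agent.Helper86.Caching

open Finset

section Expect

variable {κ A : Type*} [Fintype κ] [DecidableEq κ] [Fintype A]

/-- Expectation of `h` under the product of the laws `p k`. -/
noncomputable def E (p : κ → A → ℝ) (h : (κ → A) → ℝ) : ℝ :=
  ∑ ω : κ → A, (∏ k, p k (ω k)) * h ω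

lemma E_add (p : κ → A → ℝ) (h₁ h₂ : (κ → A) → ℝ) :
    E p (fun ω => h₁ ω + h₂ ω) = E p h₁ + E p h₂ := by
  simp only [E, mul_add, Finset.sum_add_distrib]

lemma E_sub (p : κ → A → ℝ) (h₁ h₂ : (κ → A) → ℝ) :
    E p (fun ω => h₁ ω - h₂ ω) = E p h₁ - E p h₂ := by
  simp only [E, mul_sub, Finset.sum_sub_distrib]

lemma E_mul_left (p : κ → A → ℝ) (c : ℝ) (h : (κ → A) → ℝ) :
    E p (fun ω => c * h ω) = c * E p h := by
  simp only [E, Finset.mul_sum]
  refine Finset.sum_congr rfl fun ω _ => ?_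
  ring

lemma E_sum {ι : Type*} (s : Finset ι) (p : κ → A → ℝ) (h : ι → (κ → A) → ℝ) :
    E p (fun ω => ∑ i ∈ s, h i ω) = ∑ i ∈ s, E p (h i) := by
  simp only [E, Finset.mul_sum]
  exact Finset.sum_comm

lemma E_mono {p : κ → A → ℝ} (hp : ∀ k a, 0 ≤ p k a) {h₁ h₂ : (κ → A) → ℝ}
    (h : ∀ ω, h₁ ω ≤ h₂ ω) : E p h₁ ≤ E p h₂ := by
  refine Finset.sum_le_sum fun ω _ => ?_
  exact mul_le_mul_of_nonneg_left (h ω) (Finset.prod_nonneg fun k _ => hp k _)

lemma E_const {p : κ → A → ℝ} (hp1 : ∀ k, ∑ a, p k a = 1) (c : ℝ) :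
    E p (fun _ => c) = c := by
  classical
  have h : ∑ ω : κ → A, ∏ k, p k (ω k) = 1 := by
    have := Finset.prod_univ_sum (fun _ : κ => (Finset.univ : Finset A)) (fun k a => p k a)
    rw [Fintype.piFinset_univ] at this
    rw [← this]
    exact Finset.prod_eq_one fun k _ => hp1 k
  simp only [E, ← Finset.sum_mul, h, one_mul]

lemma E_resample {p : κ → A → ℝ} (hp1 : ∀ k, ∑ a, p k a = 1) (k : κ) (h : (κ → A) → ℝ) :
    E p h = E p (fun ω => ∑ a, p k a * h (Function.update ω k a)) := by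
  classical
  have hL : E p h = ∑ x : (κ → A) × A, (∏ k', p k' (x.1 k')) * p k x.2 * h x.1 := by
    rw [Fintype.sum_prod_type]
    unfold E
    refine Finset.sum_congr rfl fun ω _ => ?_
    have : ∀ a, (∏ k', p k' (ω k')) * p k a * h ω = ((∏ k', p k' (ω k')) * h ω) * p k a := by
      intro a; ring
    simp only [this, ← Finset.mul_sum, hp1, mul_one]
  have hR : E p (fun ω => ∑ a, p k a * h (Function.update ω k a)) =
      ∑ x : (κ → A) × A, (∏ k', p k' (x.1 k')) * (p k x.2 * h (Function.update x.1 k x.2)) := by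
    rw [Fintype.sum_prod_type]
    unfold E
    refine Finset.sum_congr rfl fun ω _ => ?_
    simp only [Finset.mul_sum]
  rw [hL, hR]
  let e : (κ → A) × A ≃ (κ → A) × A :=
    { toFun := fun x => (Function.update x.1 k x.2, x.1 k)
      invFun := fun x => (Function.update x.1 k x.2, x.1 k)
      left_inv := by
        rintro ⟨ω, a⟩
        simp
      right_inv := by
        rintro ⟨ω, a⟩
        simp }
  refine (Fintype.sum_equiv e _ _ ?_).symm
  rintro ⟨ω, a⟩
  simp only [e, Equiv.coe_fn_mk]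
  have h1 : ∏ k', p k' (Function.update ω k a k') =
      p k a * ∏ k' ∈ Finset.univ.erase k, p k' (ω k') := by
    rw [← Finset.mul_prod_erase Finset.univ _ (Finset.mem_univ k)]
    congr 1
    · simp
    · refine Finset.prod_congr rfl fun k' hk' => ?_
      rw [Function.update_of_ne (Finset.ne_of_mem_erase hk')]
  have h2 : ∏ k', p k' (ω k') =
      p k (ω k) * ∏ k' ∈ Finset.univ.erase k, p k' (ω k') := by
    rw [← Finset.mul_prod_erase Finset.univ _ (Finset.mem_univ k)]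
  rw [h1, h2]
  ring

lemma E_exists {p : κ → A → ℝ} (hp : ∀ k a, 0 ≤ p k a) (hp1 : ∀ k, ∑ a, p k a = 1)
    {h : (κ → A) → ℝ} {c : ℝ} (hc : c ≤ E p h) : ∃ ω, c ≤ h ω := by
  classical
  by_contra hcon
  push Not at hcon
  have hone : ∑ ω : κ → A, ∏ k, p k (ω k) = 1 := by
    have := E_const hp1 (1 : ℝ)
    simpa [E] using this
  have hpos : ∃ ω : κ → A, 0 < ∏ k, p k (ω k) := by
    by_contra hn
    push Not at hn
    have : ∑ ω : κ → A, ∏ k, p k (ω k) ≤ 0 := Finset.sum_nonpos fun ω _ => hn ω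
    linarith
  obtain ⟨ω₀, hω₀⟩ := hpos
  have hlt : E p h < E p (fun _ => c) := by
    refine Finset.sum_lt_sum (fun ω _ => ?_) ⟨ω₀, Finset.mem_univ _, ?_⟩
    · exact mul_le_mul_of_nonneg_left (hcon ω).le (Finset.prod_nonneg fun k _ => hp k _)
    · exact mul_lt_mul_of_pos_left (hcon ω₀) hω₀
  rw [E_const hp1] at hlt
  linarith

/-- Expectation of a function of one coordinate. -/
lemma E_coord {p : κ → A → ℝ} (hp1 : ∀ k, ∑ a, p k a = 1) (k : κ) (g : A → ℝ) :
    E p (fun ω => g (ω k)) = ∑ a, p k a * g a := by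
  rw [E_resample hp1 k]
  simp only [Function.update_self]
  exact E_const hp1 _

end Expect

section Moments

variable {κ A : Type*} [Fintype κ] [DecidableEq κ] [Fintype A]

/-- Second and fourth moments of a sum of independent variables with law `v`-like moments. -/
lemma moments {p : κ → A → ℝ} (hp1 : ∀ k, ∑ a, p k a = 1) (ξ : A → ℝ) (v : ℝ) (S : Finset κ)
    (h1 : ∀ k ∈ S, ∑ a, p k a * ξ a = 0)
    (h2 : ∀ k ∈ S, ∑ a, p k a * ξ a ^ 2 = v)
    (h3 : ∀ k ∈ S, ∑ a, p k a * ξ a ^ 3 = 0)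
    (h4 : ∀ k ∈ S, ∑ a, p k a * ξ a ^ 4 = v) :
    E p (fun ω => (∑ k ∈ S, ξ (ω k)) ^ 2) = S.card * v ∧
    E p (fun ω => (∑ k ∈ S, ξ (ω k)) ^ 4) = S.card * v + 3 * S.card * (S.card - 1) * v ^ 2 := by
  classical
  induction S using Finset.induction_on with
  | empty =>
    constructor
    · simp [E]
    · simp [E]
  | insert k S hk ih =>
    have ih' := ih (fun k' hk' => h1 k' (Finset.mem_insert_of_mem hk'))
      (fun k' hk' => h2 k' (Finset.mem_insert_of_mem hk'))
      (fun k' hk' => h3 k' (Finset.mem_insert_of_mem hk'))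
      (fun k' hk' => h4 k' (Finset.mem_insert_of_mem hk'))
    have e1 := h1 k (Finset.mem_insert_self k S)
    have e2 := h2 k (Finset.mem_insert_self k S)
    have e3 := h3 k (Finset.mem_insert_self k S)
    have e4 := h4 k (Finset.mem_insert_self k S)
    have hupd : ∀ (ω : κ → A) (a : A), (∑ k' ∈ S, ξ (Function.update ω k a k')) =
        ∑ k' ∈ S, ξ (ω k') := by
      intro ω a
      refine Finset.sum_congr rfl fun k' hk' => ?_
      rw [Function.update_of_ne]
      rintro rfl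
      exact hk hk'
    constructor
    · have key : E p (fun ω => (∑ k' ∈ insert k S, ξ (ω k')) ^ 2) =
          E p (fun ω => (∑ k' ∈ S, ξ (ω k')) ^ 2) + v := by
        rw [E_resample hp1 k]
        have : ∀ ω : κ → A, ∑ a, p k a * (∑ k' ∈ insert k S, ξ (Function.update ω k a k')) ^ 2 =
            (∑ k' ∈ S, ξ (ω k')) ^ 2 + v := by
          intro ω
          simp only [Finset.sum_insert hk, hupd, Function.update_self]
          set w := ∑ k' ∈ S, ξ (ω k')
          have : ∀ a, p k a * (ξ a + w) ^ 2 =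
              w ^ 2 * p k a + 2 * w * (p k a * ξ a) + p k a * ξ a ^ 2 := by
            intro a; ring
          simp only [this, Finset.sum_add_distrib, ← Finset.mul_sum, e1, e2, hp1]
          ring
        simp only [this]
        rw [E_add, E_const hp1]
      rw [key, ih'.1, Finset.card_insert_of_notMem hk]
      push_cast
      ring
    · have key : E p (fun ω => (∑ k' ∈ insert k S, ξ (ω k')) ^ 4) =
          E p (fun ω => (∑ k' ∈ S, ξ (ω k')) ^ 4) + 6 * v * E p (fun ω => (∑ k' ∈ S, ξ (ω k')) ^ 2)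
            + v := by
        rw [E_resample hp1 k]
        have : ∀ ω : κ → A, ∑ a, p k a * (∑ k' ∈ insert k S, ξ (Function.update ω k a k')) ^ 4 =
            (∑ k' ∈ S, ξ (ω k')) ^ 4 + 6 * v * (∑ k' ∈ S, ξ (ω k')) ^ 2 + v := by
          intro ω
          simp only [Finset.sum_insert hk, hupd, Function.update_self]
          set w := ∑ k' ∈ S, ξ (ω k')
          have : ∀ a, p k a * (ξ a + w) ^ 4 =
              w ^ 4 * p k a + 4 * w ^ 3 * (p k a * ξ a) + 6 * w ^ 2 * (p k a * ξ a ^ 2)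
               + 4 * w * (p k a * ξ a ^ 3) + p k a * ξ a ^ 4 := by
            intro a; ring
          simp only [this, Finset.sum_add_distrib, ← Finset.mul_sum, e1, e2, e3, e4, hp1]
          ring
        simp only [this]
        rw [E_add, E_const hp1, E_add, E_mul_left]
      rw [key, ih'.1, ih'.2, Finset.card_insert_of_notMem hk]
      push_cast
      ring

lemma abs_ge_poly (w a : ℝ) (ha : 0 < a) :
    3 / 2 * w ^ 2 / a - 1 / 2 * w ^ 4 / a ^ 3 ≤ |w| := by
  have hw : w ^ 2 = |w| ^ 2 := (sq_abs w).symm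
  have hw4 : w ^ 4 = |w| ^ 4 := by
    rw [show w ^ 4 = (w ^ 2) ^ 2 by ring, hw]; ring
  rw [hw, hw4]
  set u := |w| with hu
  have hu0 : 0 ≤ u := abs_nonneg w
  have key : 0 ≤ u * (u - a) ^ 2 * (u + 2 * a) := by positivity
  have : u - (3 / 2 * u ^ 2 / a - 1 / 2 * u ^ 4 / a ^ 3) =
      (u * (u - a) ^ 2 * (u + 2 * a)) / (2 * a ^ 3) := by
    field_simp
    ring
  have h2 : 0 ≤ (u * (u - a) ^ 2 * (u + 2 * a)) / (2 * a ^ 3) := by positivity
  linarith

lemma E_abs_ge {p : κ → A → ℝ} (hp : ∀ k a, 0 ≤ p k a) (hp1 : ∀ k, ∑ a, p k a = 1)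
    (ξ : A → ℝ) (v : ℝ) (hv : 0 ≤ v) (S : Finset κ)
    (h1 : ∀ k ∈ S, ∑ a, p k a * ξ a = 0)
    (h2 : ∀ k ∈ S, ∑ a, p k a * ξ a ^ 2 = v)
    (h3 : ∀ k ∈ S, ∑ a, p k a * ξ a ^ 3 = 0)
    (h4 : ∀ k ∈ S, ∑ a, p k a * ξ a ^ 4 = v) :
    1 / 2 * min (S.card * v) (Real.sqrt (S.card * v)) ≤
      E p (fun ω => |∑ k ∈ S, ξ (ω k)|) := by
  obtain ⟨m2, m4⟩ := moments hp1 ξ v S h1 h2 h3 h4
  set μ : ℝ := S.card * v with hμ
  have hμ0 : 0 ≤ μ := by positivity
  have hm4 : E p (fun ω => (∑ k ∈ S, ξ (ω k)) ^ 4) ≤ μ * (1 + 3 * μ) := by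
    rw [m4, hμ]
    have : 0 ≤ (S.card : ℝ) * v ^ 2 := by positivity
    nlinarith
  set a : ℝ := Real.sqrt (1 + 3 * μ) with ha
  have ha2 : a ^ 2 = 1 + 3 * μ := Real.sq_sqrt (by positivity)
  have ha0 : 0 < a := Real.sqrt_pos.mpr (by positivity)
  have step1 : E p (fun ω => 3 / 2 * (∑ k ∈ S, ξ (ω k)) ^ 2 / a -
      1 / 2 * (∑ k ∈ S, ξ (ω k)) ^ 4 / a ^ 3) ≤ E p (fun ω => |∑ k ∈ S, ξ (ω k)|) :=
    E_mono hp fun ω => abs_ge_poly _ _ ha0
  have step2 : E p (fun ω => 3 / 2 * (∑ k ∈ S, ξ (ω k)) ^ 2 / a -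
      1 / 2 * (∑ k ∈ S, ξ (ω k)) ^ 4 / a ^ 3) =
      3 / 2 / a * μ - 1 / 2 / a ^ 3 * E p (fun ω => (∑ k ∈ S, ξ (ω k)) ^ 4) := by
    rw [E_sub]
    congr 1
    · rw [← m2, ← E_mul_left]
      congr 1
      ext ω; ring
    · rw [← E_mul_left]
      congr 1
      ext ω; ring
  have step3 : μ / a ≤ 3 / 2 / a * μ - 1 / 2 / a ^ 3 * E p (fun ω => (∑ k ∈ S, ξ (ω k)) ^ 4) := by
    have : 1 / 2 / a ^ 3 * E p (fun ω => (∑ k ∈ S, ξ (ω k)) ^ 4) ≤
        1 / 2 / a ^ 3 * (μ * a ^ 2) := by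
      rw [ha2]
      exact mul_le_mul_of_nonneg_left hm4 (by positivity)
    have h5 : 1 / 2 / a ^ 3 * (μ * a ^ 2) = 1 / 2 * (μ / a) := by
      field_simp
    have h6 : 3 / 2 / a * μ = 3 / 2 * (μ / a) := by
      field_simp
    rw [h6]
    linarith
  have step4 : 1 / 2 * min μ (Real.sqrt μ) ≤ μ / a := by
    rcases le_total μ 1 with hle | hge
    · have : a ≤ 2 := by
        rw [ha]
        calc Real.sqrt (1 + 3 * μ) ≤ Real.sqrt (2 ^ 2) := Real.sqrt_le_sqrt (by linarith)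
          _ = 2 := Real.sqrt_sq (by norm_num)
      calc 1 / 2 * min μ (Real.sqrt μ) ≤ 1 / 2 * μ := by
            gcongr
            exact min_le_left _ _
        _ = μ / 2 := by ring
        _ ≤ μ / a := div_le_div_of_nonneg_left hμ0 ha0 this
    · have hs : 0 < Real.sqrt μ := Real.sqrt_pos.mpr (by linarith)
      have : a ≤ 2 * Real.sqrt μ := by
        rw [ha]
        calc Real.sqrt (1 + 3 * μ) ≤ Real.sqrt ((2 * Real.sqrt μ) ^ 2) := by
              apply Real.sqrt_le_sqrt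
              rw [mul_pow, Real.sq_sqrt hμ0]
              linarith
          _ = 2 * Real.sqrt μ := Real.sqrt_sq (by positivity)
      calc 1 / 2 * min μ (Real.sqrt μ) ≤ 1 / 2 * Real.sqrt μ := by
            gcongr
            exact min_le_right _ _
        _ = μ / (2 * Real.sqrt μ) := by
            rw [eq_div_iff (by positivity)]
            have := Real.mul_self_sqrt hμ0
            nlinarith
        _ ≤ μ / a := div_le_div_of_nonneg_left hμ0 ha0 this
  linarith

end Moments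

end Pool.Agent.Helper86.Caching
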