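import Mathlib

namespace Pool.Agent.Helper86.Caching

open Finset

/-- Bin packing: if all weights are at most `W` and the total weight is at most `k * W`, then some
subset of weight at most `W` carries at least the fraction `1 / (2 k)` of the total value. -/
lemma knapsack {I : Type*} [DecidableEq I] (w : I → ℕ) (v : I → ℝ) (W : ℕ) (hw : ∀ i, w i ≤ W)
    (M : ℝ) (k : ℕ) (hk : 1 ≤ k) :
    ∀ S : Finset I, ∑ i ∈ S, w i ≤ k * W →
      (∀ G ⊆ S, ∑ i ∈ G, w i ≤ W → ∑ i ∈ G, v i ≤ M) → ∑ i ∈ S, v i ≤ 2 * k * M := by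
  induction k, hk using Nat.le_induction with
  | base =>
    intro S hS hM
    have h0 : 0 ≤ M := by simpa using hM ∅ (by simp) (by simp)
    have := hM S subset_rfl (by simpa using hS)
    push_cast
    linarith
  | succ k hk ih =>
    intro S hS hM
    have h0 : 0 ≤ M := by simpa using hM ∅ (by simp) (by simp)
    by_cases hle : ∑ i ∈ S, w i ≤ W
    · have := hM S subset_rfl hle
      have h2 : (1 : ℝ) ≤ 2 * ((k + 1 : ℕ) : ℝ) := by
        push_cast
        have : (0 : ℝ) ≤ k := Nat.cast_nonneg k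
        linarith
      nlinarith
    · push Not at hle
      -- a minimal subset of weight more than W
      have hne : (S.powerset.filter fun G => W < ∑ i ∈ G, w i).Nonempty :=
        ⟨S, by simp [hle]⟩
      obtain ⟨G₁, hG₁⟩ := Finset.exists_minimal hne
      have hG₁mem : G₁ ∈ S.powerset.filter fun G => W < ∑ i ∈ G, w i := hG₁.1
      rw [Finset.mem_filter, Finset.mem_powerset] at hG₁mem
      obtain ⟨hG₁S, hG₁W⟩ := hG₁mem
      have hG₁ne : G₁.Nonempty := by
        rw [Finset.nonempty_iff_ne_empty]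
        rintro rfl
        simp at hG₁W
      obtain ⟨i₀, hi₀⟩ := hG₁ne
      have hsmall : ∑ i ∈ G₁.erase i₀, w i ≤ W := by
        by_contra hcon
        push Not at hcon
        have hmem : G₁.erase i₀ ∈ S.powerset.filter fun G => W < ∑ i ∈ G, w i := by
          rw [Finset.mem_filter, Finset.mem_powerset]
          exact ⟨(Finset.erase_subset _ _).trans hG₁S, hcon⟩
        have := hG₁.2 hmem (Finset.erase_subset i₀ G₁) hi₀
        exact Finset.notMem_erase i₀ G₁ this
      have hrest : ∑ i ∈ S \ G₁, w i ≤ k * W := by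
        have := Finset.sum_sdiff (f := w) hG₁S
        have h2 : (k + 1) * W = k * W + W := by ring
        omega
      have hv1 : ∑ i ∈ G₁.erase i₀, v i ≤ M :=
        hM _ ((Finset.erase_subset _ _).trans hG₁S) hsmall
      have hv2 : v i₀ ≤ M := by
        have := hM {i₀} (by simpa using hG₁S hi₀) (by simpa using hw i₀)
        simpa using this
      have hv3 : ∑ i ∈ S \ G₁, v i ≤ 2 * k * M :=
        ih (S \ G₁) hrest fun G hG hGW => hM G (hG.trans Finset.sdiff_subset) hGW
      have e1 := Finset.sum_sdiff (f := v) hG₁S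
      have e2 := Finset.add_sum_erase G₁ v hi₀
      push_cast
      linarith

/-- existence form of `knapsack` -/
lemma knapsack_exists {I : Type*} [DecidableEq I] (w : I → ℕ) (v : I → ℝ) (W : ℕ)
    (hw : ∀ i, w i ≤ W) (k : ℕ) (hk : 1 ≤ k) (S : Finset I) (hS : ∑ i ∈ S, w i ≤ k * W) :
    ∃ G ⊆ S, ∑ i ∈ G, w i ≤ W ∧ ∑ i ∈ S, v i ≤ 2 * k * ∑ i ∈ G, v i := by
  have hne : (S.powerset.filter fun G => ∑ i ∈ G, w i ≤ W).Nonempty :=
    ⟨∅, by simp⟩
  obtain ⟨G, hG, hmax⟩ := Finset.exists_max_image _ (fun G => ∑ i ∈ G, v i) hne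
  rw [Finset.mem_filter, Finset.mem_powerset] at hG
  refine ⟨G, hG.1, hG.2, knapsack w v W hw _ k hk S hS ?_⟩
  intro G' hG' hG'W
  exact hmax G' (by rw [Finset.mem_filter, Finset.mem_powerset]; exact ⟨hG', hG'W⟩)

/-- A partial injection between finite types extends to an injection. -/
lemma exists_injective_extension {α β : Type*} [Fintype α] [Fintype β] [DecidableEq β]
    (hcard : Fintype.card α ≤ Fintype.card β) (s : Finset α) (f : α → β)
    (hf : Set.InjOn f s) : ∃ g : α → β, Function.Injective g ∧ ∀ a ∈ s, g a = f a := by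
  have h1 : (s.image f).card ≤ Fintype.card α :=
    Finset.card_image_le.trans (Finset.card_le_univ s)
  obtain ⟨t, hst, ht⟩ := Finset.exists_superset_card_eq h1 hcard
  obtain ⟨g, hg⟩ := Finset.exists_equiv_extend_of_card_eq ht.symm hst hf
  refine ⟨fun a => (g a : β), ?_, hg⟩
  intro a b hab
  exact g.injective (Subtype.ext hab)

end Pool.Agent.Helper86.Caching
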