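import Mathlib
import Pool.Agent.Helper86.Caching.Defs
import Pool.Agent.Helper86.Caching.Expect
import Pool.Agent.Helper86.Caching.Knapsack

namespace Pool.Agent.Helper86.Caching

set_option linter.unusedSectionVars false

open Finset

variable {I J : Type} [Fintype I] [Fintype J] [DecidableEq I] [DecidableEq J]
  (adj : I → J → Prop) [∀ i j, Decidable (adj i j)]

/-- the data of the random adversary -/
structure Adversary (G : Finset I) (ψ : J → I) (C N : ℕ) where
  e : I → J × Fin C × Bool → Fin N
  inj : ∀ i ∈ G, ∀ i' ∈ G, ∀ q q', adj i q.1 → adj i' q'.1 → e i q = e i' q' → i = i' ∧ q = q'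
  hdeg : ∀ i ∈ G, 0 < userDeg adj i
  hψG : ∀ j, (∃ i ∈ G, adj i j) → ψ j ∈ G
  hψadj : ∀ j, (∃ i ∈ G, adj i j) → adj (ψ j) j
  hψmin : ∀ j, ∀ i ∈ G, adj i j → userDeg adj (ψ j) ≤ userDeg adj i
  hC : 0 < C
  hN : 0 < N
  hJN : Fintype.card J * C ≤ N

namespace Adversary

variable {adj} {G : Finset I} {ψ : J → I} {C N : ℕ} (D : Adversary adj G ψ C N)

/-- the private files of user `i` -/
def F (i : I) : Finset (Fin N) :=
  (univ.filter fun q : J × Fin C × Bool => adj i q.1).image (D.e i)

/-- the request law of user `i` -/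
noncomputable def P (i : I) (f : Fin N) : ℝ :=
  if i ∈ G then (if f ∈ D.F i then 1 / (2 * C * userDeg adj i : ℝ) else 0) else 1 / (N : ℝ)

lemma P_nonneg (i : I) (f : Fin N) : 0 ≤ D.P i f := by
  unfold P
  split_ifs <;> positivity

lemma card_F {i : I} (hi : i ∈ G) : (D.F i).card = 2 * C * userDeg adj i := by
  unfold F
  rw [Finset.card_image_of_injOn]
  · have : (univ.filter fun q : J × Fin C × Bool => adj i q.1) =
        (univ.filter fun j : J => adj i j) ×ˢ (univ : Finset (Fin C × Bool)) := by
      ext q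
      simp
    rw [this, Finset.card_product, userDeg]
    simp
    ring
  · intro q hq q' hq' h
    simp only [coe_filter, mem_univ, true_and, Set.mem_ofPred_eq] at hq hq'
    exact (D.inj i hi i hi q q' hq hq' h).2

lemma P_sum (i : I) : ∑ f, D.P i f = 1 := by
  unfold P
  by_cases hi : i ∈ G
  · simp only [hi, if_true]
    rw [← Finset.sum_filter, Finset.sum_const, Finset.filter_mem_eq_inter, Finset.univ_inter,
      D.card_F hi]
    have h1 : (0 : ℝ) < C := by exact_mod_cast D.hC
    have h2 : (0 : ℝ) < userDeg adj i := by exact_mod_cast D.hdeg i hi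
    rw [nsmul_eq_mul]
    push_cast
    field_simp
  · simp only [hi, if_false]
    have h1 : (0 : ℝ) < N := by exact_mod_cast D.hN
    simp
    field_simp

/-- number of inactive neighbours -/
def nIn (G : Finset I) (adj : I → J → Prop) [∀ i j, Decidable (adj i j)] (j : J) : ℕ :=
  #{i | i ∉ G ∧ adj i j}

/-- the best value of a unit of capacity of cache `j` -/
noncomputable def R (j : J) : ℝ :=
  nIn G adj j / N + if ∃ i ∈ G, adj i j then 1 / (2 * C * userDeg adj (ψ j) : ℝ) else 0

lemma rho_le (j : J) (f : Fin N) : ∑ i with adj i j, D.P i f ≤ R (ψ := ψ) (C := C) (N := N) (G := G) (adj := adj) j := by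
  classical
  have hsplit : ∑ i with adj i j, D.P i f =
      ∑ i with (i ∉ G ∧ adj i j), D.P i f + ∑ i with (i ∈ G ∧ adj i j), D.P i f := by
    rw [← Finset.sum_filter_add_sum_filter_not (univ.filter fun i => adj i j) (fun i => i ∉ G)]
    congr 1
    · rw [Finset.filter_filter]
      refine Finset.sum_congr ?_ fun _ _ => rfl
      ext i; simp [and_comm]
    · rw [Finset.filter_filter]
      refine Finset.sum_congr ?_ fun _ _ => rfl
      ext i; simp [and_comm]
  rw [hsplit, R]
  apply add_le_add
  · have : ∑ i with (i ∉ G ∧ adj i j), D.P i f = ∑ i with (i ∉ G ∧ adj i j), (1 / (N : ℝ)) := by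
      refine Finset.sum_congr rfl fun i hi => ?_
      rw [Finset.mem_filter] at hi
      simp [P, hi.2.1]
    rw [this, Finset.sum_const, nsmul_eq_mul, nIn]
    apply le_of_eq
    ring
  · by_cases hex : ∃ i₀ ∈ G, adj i₀ j ∧ f ∈ D.F i₀
    · obtain ⟨i₀, hi₀G, hi₀adj, hf⟩ := hex
      have hact : ∃ i ∈ G, adj i j := ⟨i₀, hi₀G, hi₀adj⟩
      rw [if_pos hact]
      have hsing : ∑ i with (i ∈ G ∧ adj i j), D.P i f = D.P i₀ f := by
        apply Finset.sum_eq_single_of_mem i₀
        · simp [hi₀G, hi₀adj]
        · intro i hi hne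
          rw [Finset.mem_filter] at hi
          have hnot : f ∉ D.F i := by
            intro hfi
            unfold F at hf hfi
            rw [Finset.mem_image] at hf hfi
            obtain ⟨q, hq, hqf⟩ := hf
            obtain ⟨q', hq', hqf'⟩ := hfi
            rw [Finset.mem_filter] at hq hq'
            exact hne (D.inj i hi.2.1 i₀ hi₀G q' q hq'.2 hq.2 (by rw [hqf, hqf'])).1
          simp [P, hi.2.1, hnot]
      rw [hsing]
      simp only [P, hi₀G, if_true, hf]
      have h1 : (0 : ℝ) < C := by exact_mod_cast D.hC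
      have h2 : (0 : ℝ) < userDeg adj (ψ j) := by exact_mod_cast D.hdeg _ (D.hψG j hact)
      have h3 : (userDeg adj (ψ j) : ℝ) ≤ userDeg adj i₀ := by
        exact_mod_cast D.hψmin j i₀ hi₀G hi₀adj
      apply one_div_le_one_div_of_le (by positivity)
      gcongr
    · push Not at hex
      have hz : ∑ i with (i ∈ G ∧ adj i j), D.P i f = 0 := by
        apply Finset.sum_eq_zero
        intro i hi
        rw [Finset.mem_filter] at hi
        simp [P, hi.2.1, hex i hi.2.1 hi.2.2]
      rw [hz]
      split_ifs <;> positivity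

/-- the best expected one-slot reward of a policy -/
noncomputable def B (G : Finset I) (ψ : J → I) (adj : I → J → Prop)
    [∀ i j, Decidable (adj i j)] (C N : ℕ) : ℝ :=
  ∑ j, C * R (ψ := ψ) (C := C) (N := N) (G := G) (adj := adj) j

include D in
lemma R_nonneg (j : J) : 0 ≤ R (ψ := ψ) (C := C) (N := N) (G := G) (adj := adj) j := by
  have := D.hN
  unfold R
  split_ifs <;> positivity

lemma avg_le {y : J → Fin N → ℝ} (hy : IsConfig C y) :
    ∑ i, ∑ a, D.P i a * min 1 (∑ j with adj i j, y j a) ≤ B G ψ adj C N := by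
  calc ∑ i, ∑ a, D.P i a * min 1 (∑ j with adj i j, y j a)
      ≤ ∑ i, ∑ a, D.P i a * (∑ j with adj i j, y j a) := by
        refine Finset.sum_le_sum fun i _ => Finset.sum_le_sum fun a _ => ?_
        exact mul_le_mul_of_nonneg_left (min_le_right _ _) (D.P_nonneg i a)
    _ = ∑ i, ∑ a, ∑ j, (if adj i j then D.P i a * y j a else 0) := by
        refine Finset.sum_congr rfl fun i _ => Finset.sum_congr rfl fun a _ => ?_
        rw [Finset.mul_sum, Finset.sum_filter]
    _ = ∑ j, ∑ a, y j a * ∑ i with adj i j, D.P i a := by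
        rw [Finset.sum_comm]
        have : ∀ a, ∑ i, ∑ j, (if adj i j then D.P i a * y j a else 0) =
            ∑ j, y j a * ∑ i with adj i j, D.P i a := by
          intro a
          rw [Finset.sum_comm]
          refine Finset.sum_congr rfl fun j _ => ?_
          rw [Finset.mul_sum, Finset.sum_filter]
          refine Finset.sum_congr rfl fun i _ => ?_
          split_ifs
          · ring
          · rfl
        simp only [this]
        rw [Finset.sum_comm]
    _ ≤ ∑ j, ∑ a, y j a * R (ψ := ψ) (C := C) (N := N) (G := G) (adj := adj) j := by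
        refine Finset.sum_le_sum fun j _ => Finset.sum_le_sum fun a _ => ?_
        exact mul_le_mul_of_nonneg_left (D.rho_le j a) (hy.1 j a).1
    _ ≤ B G ψ adj C N := by
        refine Finset.sum_le_sum fun j _ => ?_
        rw [← Finset.sum_mul]
        exact mul_le_mul_of_nonneg_right (hy.2 j) (D.R_nonneg j)

/-- the law of all requests -/
noncomputable def law (T : ℕ) : Fin T × I → Fin N → ℝ := fun k => D.P k.2

lemma law_nonneg (T : ℕ) (k : Fin T × I) (a : Fin N) : 0 ≤ D.law T k a := D.P_nonneg _ _

lemma law_sum (T : ℕ) (k : Fin T × I) : ∑ a, D.law T k a = 1 := D.P_sum _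

lemma policy_le (T : ℕ) (π : Policy I J N C) :
    E (D.law T) (fun ω => ∑ t : Fin T, reward adj (fun i => ω (t, i))
      (π.play t fun (s : Fin t) i => ω (⟨s, s.2.trans t.2⟩, i))) ≤ T * B G ψ adj C N := by
  rw [E_sum]
  have hone : ∀ t : Fin T, E (D.law T) (fun ω => reward adj (fun i => ω (t, i))
      (π.play t fun (s : Fin t) i => ω (⟨s, s.2.trans t.2⟩, i))) ≤ B G ψ adj C N := by
    intro t
    have h1 : E (D.law T) (fun ω => reward adj (fun i => ω (t, i))
      (π.play t fun (s : Fin t) i => ω (⟨s, s.2.trans t.2⟩, i))) =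
        E (D.law T) (fun ω => ∑ i, ∑ a, D.P i a * min 1 (∑ j with adj i j,
          (π.play t fun (s : Fin t) i => ω (⟨s, s.2.trans t.2⟩, i)) j a)) := by
      simp only [reward]
      rw [E_sum, E_sum]
      refine Finset.sum_congr rfl fun i _ => ?_
      rw [E_resample (D.law_sum T) (t, i)]
      congr 1
      ext ω
      refine Finset.sum_congr rfl fun a _ => ?_
      have hplay : (fun (s : Fin t) i' => Function.update ω (t, i) a (⟨s, s.2.trans t.2⟩, i')) =
          (fun (s : Fin t) i' => ω (⟨s, s.2.trans t.2⟩, i')) := by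
        funext s i'
        rw [Function.update_of_ne]
        intro h
        have h' := congrArg (fun x : Fin T × I => (x.1 : ℕ)) h
        simp only at h'
        have := s.2
        omega
      rw [hplay]
      simp [law]
    rw [h1]
    calc E (D.law T) (fun ω => ∑ i, ∑ a, D.P i a * min 1 (∑ j with adj i j,
          (π.play t fun (s : Fin t) i => ω (⟨s, s.2.trans t.2⟩, i)) j a))
        ≤ E (D.law T) (fun _ => B G ψ adj C N) :=
          E_mono (D.law_nonneg T) fun ω => D.avg_le (π.legal _ _)
      _ = B G ψ adj C N := E_const (D.law_sum T) _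
  calc ∑ t : Fin T, E (D.law T) (fun ω => reward adj (fun i => ω (t, i))
      (π.play t fun (s : Fin t) i => ω (⟨s, s.2.trans t.2⟩, i))) ≤ ∑ t : Fin T, B G ψ adj C N :=
        Finset.sum_le_sum fun t _ => hone t
    _ = T * B G ψ adj C N := by simp

/-- number of requests of user `i` for file `f` -/
noncomputable def cnt {T : ℕ} (ω : Fin T × I → Fin N) (i : I) (f : Fin N) : ℝ :=
  ∑ t : Fin T, if ω (t, i) = f then 1 else 0

/-- which of the two files of a pair is more popular -/
noncomputable def win {T : ℕ} (ω : Fin T × I → Fin N) (s : J × Fin C) : Bool :=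
  open Classical in
  if (∃ i ∈ G, adj i s.1) ∧ cnt ω (ψ s.1) (D.e (ψ s.1) (s.1, s.2, false)) ≤
    cnt ω (ψ s.1) (D.e (ψ s.1) (s.1, s.2, true)) then true else false

lemma exists_assign (b : J × Fin C → Bool) : ∃ g : J × Fin C → Fin N, Function.Injective g ∧
    ∀ s : J × Fin C, (∃ i ∈ G, adj i s.1) → g s = D.e (ψ s.1) (s.1, s.2, b s) := by
  classical
  have hcard : Fintype.card (J × Fin C) ≤ Fintype.card (Fin N) := by
    simpa using D.hJN
  obtain ⟨g, hg, hgs⟩ := exists_injective_extension hcard
    (univ.filter fun s : J × Fin C => ∃ i ∈ G, adj i s.1)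
    (fun s => D.e (ψ s.1) (s.1, s.2, b s)) (by
      intro s hs s' hs' h
      simp only [coe_filter, mem_univ, true_and, Set.mem_ofPred_eq] at hs hs'
      have := (D.inj _ (D.hψG _ hs) _ (D.hψG _ hs') (s.1, s.2, b s) (s'.1, s'.2, b s')
        (D.hψadj _ hs) (D.hψadj _ hs') h).2
      simp only [Prod.mk.injEq] at this
      exact Prod.ext this.1 this.2.1)
  exact ⟨g, hg, fun s hs => hgs s (by simpa using hs)⟩

/-- slot assignment of the offline configuration -/
noncomputable def assign (b : J × Fin C → Bool) : J × Fin C → Fin N :=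
  (D.exists_assign b).choose

lemma assign_inj (b : J × Fin C → Bool) : Function.Injective (D.assign b) :=
  (D.exists_assign b).choose_spec.1

lemma assign_eq (b : J × Fin C → Bool) (s : J × Fin C) (h : ∃ i ∈ G, adj i s.1) :
    D.assign b s = D.e (ψ s.1) (s.1, s.2, b s) :=
  (D.exists_assign b).choose_spec.2 s h

/-- the offline configuration -/
noncomputable def ystar (b : J × Fin C → Bool) (j : J) (f : Fin N) : ℝ :=
  ∑ c : Fin C, if D.assign b (j, c) = f then 1 else 0

lemma ystar_nonneg (b : J × Fin C → Bool) (j : J) (f : Fin N) : 0 ≤ D.ystar b j f := by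
  unfold ystar
  exact Finset.sum_nonneg fun c _ => by split_ifs <;> norm_num

lemma ystar_sum_le (b : J × Fin C → Bool) (f : Fin N) : ∑ j, D.ystar b j f ≤ 1 := by
  classical
  unfold ystar
  rw [← Fintype.sum_prod_type' (fun j c => if D.assign b (j, c) = f then (1 : ℝ) else 0)]
  rw [Finset.sum_boole]
  have : #{x : J × Fin C | D.assign b (x.1, x.2) = f} ≤ 1 := by
    rw [Finset.card_le_one]
    intro s hs s' hs'
    rw [Finset.mem_filter] at hs hs'
    exact D.assign_inj b (hs.2.trans hs'.2.symm)
  exact_mod_cast this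

lemma ystar_sum_file (b : J × Fin C → Bool) (j : J) : ∑ f, D.ystar b j f = C := by
  unfold ystar
  rw [Finset.sum_comm]
  simp

lemma ystar_config (b : J × Fin C → Bool) : IsConfig C (D.ystar b) := by
  refine ⟨fun j f => ⟨D.ystar_nonneg b j f, ?_⟩, fun j => (D.ystar_sum_file b j).le⟩
  calc D.ystar b j f ≤ ∑ j, D.ystar b j f :=
        Finset.single_le_sum (f := fun j => D.ystar b j f)
          (fun j _ => D.ystar_nonneg b j f) (Finset.mem_univ j)
    _ ≤ 1 := D.ystar_sum_le b f

lemma reward_ystar (b : J × Fin C → Bool) (x : I → Fin N) :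
    reward adj x (D.ystar b) = ∑ i, ∑ j with adj i j, D.ystar b j (x i) := by
  unfold reward
  refine Finset.sum_congr rfl fun i _ => min_eq_right ?_
  calc ∑ j with adj i j, D.ystar b j (x i) ≤ ∑ j, D.ystar b j (x i) :=
        Finset.sum_le_sum_of_subset_of_nonneg (Finset.filter_subset _ _)
          fun j _ _ => D.ystar_nonneg b j _
    _ ≤ 1 := D.ystar_sum_le b _

lemma win_update {T : ℕ} (ω : Fin T × I → Fin N) {i : I} (hi : i ∉ G) (t : Fin T) (a : Fin N) :
    D.win (Function.update ω (t, i) a) = D.win ω := by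
  funext s
  unfold win
  by_cases hact : ∃ i ∈ G, adj i s.1
  · have hne : ψ s.1 ≠ i := fun h => hi (h ▸ D.hψG _ hact)
    have hcnt : ∀ f, cnt (Function.update ω (t, i) a) (ψ s.1) f = cnt ω (ψ s.1) f := by
      intro f
      unfold cnt
      refine Finset.sum_congr rfl fun t' _ => ?_
      rw [Function.update_of_ne]
      intro h
      exact hne (congrArg Prod.snd h)
    simp only [hcnt]
  · simp only [hact, false_and, if_false]

lemma offline_inactive (T : ℕ) {i : I} (hi : i ∉ G) :
    E (D.law T) (fun ω => ∑ t : Fin T, ∑ j with adj i j, D.ystar (D.win ω) j (ω (t, i))) =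
      T * (C * userDeg adj i / N) := by
  rw [E_sum]
  have hone : ∀ t : Fin T, E (D.law T) (fun ω => ∑ j with adj i j,
      D.ystar (D.win ω) j (ω (t, i))) = C * userDeg adj i / N := by
    intro t
    rw [E_resample (D.law_sum T) (t, i)]
    have : ∀ ω : Fin T × I → Fin N, ∑ a, D.law T (t, i) a * (∑ j with adj i j,
        D.ystar (D.win (Function.update ω (t, i) a)) j (Function.update ω (t, i) a (t, i))) =
        C * userDeg adj i / N := by
      intro ω
      simp only [D.win_update ω hi, Function.update_self, law, P, hi, if_false]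
      rw [← Finset.mul_sum, Finset.sum_comm]
      simp only [D.ystar_sum_file]
      rw [Finset.sum_const, userDeg, nsmul_eq_mul]
      ring
    simp only [this]
    exact E_const (D.law_sum T) _
  rw [Finset.sum_congr rfl fun t _ => hone t]
  simp

lemma E_cnt (T : ℕ) (i : I) (f : Fin N) : E (D.law T) (fun ω => cnt ω i f) = T * D.P i f := by
  unfold cnt
  rw [E_sum]
  have : ∀ t : Fin T, E (D.law T) (fun ω => if ω (t, i) = f then (1 : ℝ) else 0) = D.P i f := by
    intro t
    rw [E_coord (D.law_sum T) (t, i) (fun a => if a = f then (1 : ℝ) else 0)]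
    simp [law]
  rw [Finset.sum_congr rfl fun t _ => this t]
  simp

lemma E_abs_diff (T : ℕ) {i : I} (hi : i ∈ G) (j : J) (hij : adj i j) (c : Fin C) :
    1 / 2 * min (T * (1 / (C * userDeg adj i : ℝ))) (Real.sqrt (T * (1 / (C * userDeg adj i : ℝ))))
      ≤ E (D.law T) (fun ω => |cnt ω i (D.e i (j, c, true)) - cnt ω i (D.e i (j, c, false))|) := by
  classical
  set f₁ := D.e i (j, c, true) with hf₁
  set f₀ := D.e i (j, c, false) with hf₀
  have hC : (0 : ℝ) < C := by exact_mod_cast D.hC
  have hd : (0 : ℝ) < userDeg adj i := by exact_mod_cast D.hdeg i hi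
  have hne : f₁ ≠ f₀ := by
    intro h
    have := (D.inj i hi i hi (j, c, true) (j, c, false) hij hij h).2
    simp at this
  have hP1 : D.P i f₁ = 1 / (2 * C * userDeg adj i : ℝ) := by
    have : f₁ ∈ D.F i := by
      unfold F
      rw [Finset.mem_image]
      exact ⟨(j, c, true), by simp [hij], rfl⟩
    simp [P, hi, this]
  have hP0 : D.P i f₀ = 1 / (2 * C * userDeg adj i : ℝ) := by
    have : f₀ ∈ D.F i := by
      unfold F
      rw [Finset.mem_image]
      exact ⟨(j, c, false), by simp [hij], rfl⟩
    simp [P, hi, this]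
  let ξ : Fin N → ℝ := fun a => (if a = f₁ then 1 else 0) - (if a = f₀ then 1 else 0)
  let emb : Fin T ↪ Fin T × I := ⟨fun t => (t, i), fun t t' h => congrArg Prod.fst h⟩
  let S : Finset (Fin T × I) := univ.map emb
  have hS : S.card = T := by simp [S]
  have hSmem : ∀ k ∈ S, k.2 = i := by
    intro k hk
    simp only [S, Finset.mem_map, mem_univ, true_and] at hk
    obtain ⟨t, rfl⟩ := hk
    rfl
  have hmom : ∀ n : ℕ, n ≠ 0 → ∑ a, D.P i a * ξ a ^ n = (1 + (-1) ^ n) * (1 / (2 * C * userDeg adj i : ℝ)) := by
    intro n hn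
    have hterm : ∀ a, D.P i a * ξ a ^ n =
        (if a = f₁ then D.P i a else 0) + (if a = f₀ then D.P i a * (-1) ^ n else 0) := by
      intro a
      by_cases h1 : a = f₁
      · have h0 : a ≠ f₀ := fun h => hne (h1.symm.trans h)
        simp [ξ, h1, hne]
      · by_cases h0 : a = f₀
        · simp [ξ, h0, Ne.symm hne]
        · simp [ξ, h1, h0, hn]
    simp only [hterm, Finset.sum_add_distrib, Finset.sum_ite_eq', Finset.mem_univ, if_true, hP1, hP0]
    ring
  have key := E_abs_ge (D.law_nonneg T) (D.law_sum T) ξ (1 / (C * userDeg adj i : ℝ))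
    (by positivity) S
    (fun k hk => by
      have := hmom 1 one_ne_zero
      simp only [law, hSmem k hk]
      simpa using this)
    (fun k hk => by
      have := hmom 2 two_ne_zero
      simp only [law, hSmem k hk]
      rw [this]
      field_simp
      norm_num)
    (fun k hk => by
      have := hmom 3 (by norm_num)
      simp only [law, hSmem k hk]
      rw [this]
      norm_num)
    (fun k hk => by
      have := hmom 4 (by norm_num)
      simp only [law, hSmem k hk]
      rw [this]
      field_simp
      norm_num)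
  rw [hS] at key
  refine key.trans (le_of_eq ?_)
  congr 1
  ext ω
  congr 1
  simp only [S, Finset.sum_map, emb, ξ, cnt, Finset.sum_sub_distrib]
  rfl

lemma active_pointwise {T : ℕ} (ω : Fin T × I → Fin N) {i : I} :
    ∑ j with ((∃ i ∈ G, adj i j) ∧ ψ j = i), ∑ c : Fin C,
      (1 / 2 * (cnt ω i (D.e i (j, c, true)) + cnt ω i (D.e i (j, c, false))) +
        1 / 2 * |cnt ω i (D.e i (j, c, true)) - cnt ω i (D.e i (j, c, false))|) ≤
    ∑ t : Fin T, ∑ j with adj i j, D.ystar (D.win ω) j (ω (t, i)) := by
  classical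
  calc ∑ j with ((∃ i ∈ G, adj i j) ∧ ψ j = i), ∑ c : Fin C,
      (1 / 2 * (cnt ω i (D.e i (j, c, true)) + cnt ω i (D.e i (j, c, false))) +
        1 / 2 * |cnt ω i (D.e i (j, c, true)) - cnt ω i (D.e i (j, c, false))|)
      = ∑ j with ((∃ i ∈ G, adj i j) ∧ ψ j = i), ∑ t : Fin T, D.ystar (D.win ω) j (ω (t, i)) := by
        refine Finset.sum_congr rfl fun j hj => ?_
        rw [Finset.mem_filter] at hj
        obtain ⟨-, hact, hψ⟩ := hj
        unfold ystar
        rw [Finset.sum_comm]
        refine Finset.sum_congr rfl fun c _ => ?_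
        have hass : D.assign (D.win ω) (j, c) = D.e i (j, c, D.win ω (j, c)) := by
          rw [D.assign_eq _ _ hact, hψ]
        have hc : ∑ t : Fin T, (if D.assign (D.win ω) (j, c) = ω (t, i) then (1 : ℝ) else 0) =
            cnt ω i (D.e i (j, c, D.win ω (j, c))) := by
          unfold cnt
          refine Finset.sum_congr rfl fun t _ => ?_
          rw [hass]
          simp only [eq_comm]
        rw [hc]
        unfold win
        simp only [hψ]
        by_cases hle : cnt ω i (D.e i (j, c, false)) ≤ cnt ω i (D.e i (j, c, true))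
        · rw [if_pos ⟨hact, hle⟩, abs_of_nonneg (by linarith)]
          ring
        · rw [if_neg (fun h => hle h.2), abs_of_nonpos (by linarith)]
          ring
    _ ≤ ∑ j with adj i j, ∑ t : Fin T, D.ystar (D.win ω) j (ω (t, i)) := by
        apply Finset.sum_le_sum_of_subset_of_nonneg
        · intro j hj
          rw [Finset.mem_filter] at hj ⊢
          obtain ⟨-, hact, hψ⟩ := hj
          exact ⟨Finset.mem_univ _, hψ ▸ D.hψadj j hact⟩
        · intro j _ _
          exact Finset.sum_nonneg fun t _ => D.ystar_nonneg _ _ _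
    _ = ∑ t : Fin T, ∑ j with adj i j, D.ystar (D.win ω) j (ω (t, i)) := Finset.sum_comm

/-- gain per capacity unit of a cache serving user `i` -/
noncomputable def gain (adj : I → J → Prop) [∀ i j, Decidable (adj i j)] (C T : ℕ) (i : I) : ℝ :=
  min (T * (1 / (C * userDeg adj i : ℝ))) (Real.sqrt (T * (1 / (C * userDeg adj i : ℝ))))

lemma offline_active (T : ℕ) {i : I} (hi : i ∈ G) :
    ∑ j with ((∃ i ∈ G, adj i j) ∧ ψ j = i), C *
      (T * (1 / (2 * C * userDeg adj i : ℝ)) + 1 / 4 * gain adj C T i) ≤
    E (D.law T) (fun ω => ∑ t : Fin T, ∑ j with adj i j, D.ystar (D.win ω) j (ω (t, i))) := by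
  classical
  refine le_trans ?_ (E_mono (D.law_nonneg T) fun ω => D.active_pointwise ω)
  rw [E_sum]
  refine Finset.sum_le_sum fun j hj => ?_
  rw [Finset.mem_filter] at hj
  obtain ⟨-, hact, hψ⟩ := hj
  have hij : adj i j := hψ ▸ D.hψadj j hact
  rw [E_sum]
  have hc : ∀ c : Fin C, (T * (1 / (2 * C * userDeg adj i : ℝ)) + 1 / 4 * gain adj C T i) ≤
      E (D.law T) (fun ω => 1 / 2 * (cnt ω i (D.e i (j, c, true)) + cnt ω i (D.e i (j, c, false))) +
        1 / 2 * |cnt ω i (D.e i (j, c, true)) - cnt ω i (D.e i (j, c, false))|) := by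
    intro c
    rw [E_add, E_mul_left, E_add, E_mul_left, D.E_cnt, D.E_cnt]
    have h := D.E_abs_diff T hi j hij c
    have hP : ∀ b, D.P i (D.e i (j, c, b)) = 1 / (2 * C * userDeg adj i : ℝ) := by
      intro b
      have : D.e i (j, c, b) ∈ D.F i := by
        unfold F
        rw [Finset.mem_image]
        exact ⟨(j, c, b), by simp [hij], rfl⟩
      simp [P, hi, this]
    rw [hP, hP]
    unfold gain
    linarith
  calc C * (T * (1 / (2 * C * userDeg adj i : ℝ)) + 1 / 4 * gain adj C T i)
      = ∑ _c : Fin C, (T * (1 / (2 * C * userDeg adj i : ℝ)) + 1 / 4 * gain adj C T i) := by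
        rw [Finset.sum_const, Finset.card_univ, Fintype.card_fin, nsmul_eq_mul]
    _ ≤ _ := Finset.sum_le_sum fun c _ => hc c

include D in
/-- the adversary beats every policy -/
theorem exists_bad (T : ℕ) (π : Policy I J N C) :
    ∃ (x : Fin T → I → Fin N) (y : J → Fin N → ℝ), IsConfig C y ∧
      ∑ j with (∃ i ∈ G, adj i j), (C : ℝ) * (1 / 4 * gain adj C T (ψ j)) ≤
        ∑ t : Fin T, reward adj (x t) y -
          ∑ t : Fin T, reward adj (x t) (π.play t fun s => x ⟨s, s.2.trans t.2⟩) := by
  classical
  have hN : (0 : ℝ) < N := by exact_mod_cast D.hN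
  set A : ℝ := ∑ j with (∃ i ∈ G, adj i j), (C : ℝ) * (1 / 4 * gain adj C T (ψ j)) with hA
  have hkey : A ≤ E (D.law T) (fun ω =>
      (∑ t : Fin T, reward adj (fun i => ω (t, i)) (D.ystar (D.win ω))) -
      ∑ t : Fin T, reward adj (fun i => ω (t, i))
      (π.play t fun (s : Fin t) i => ω (⟨s, s.2.trans t.2⟩, i))) := by
    rw [E_sub]
    have h1 := D.policy_le T π
    have h2 : T * B G ψ adj C N + A ≤ E (D.law T) (fun ω =>
      (∑ t : Fin T, reward adj (fun i => ω (t, i)) (D.ystar (D.win ω)))) := by
      have hre : (fun ω : Fin T × I → Fin N =>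
          (∑ t : Fin T, reward adj (fun i => ω (t, i)) (D.ystar (D.win ω)))) =
          fun ω => ∑ i, ∑ t : Fin T, ∑ j with adj i j, D.ystar (D.win ω) j (ω (t, i)) := by
        funext ω
        simp only [D.reward_ystar]
        exact Finset.sum_comm
      rw [hre, E_sum]
      have hlow : ∀ i : I, (if i ∈ G then
          ∑ j with ((∃ i ∈ G, adj i j) ∧ ψ j = i), C *
            (T * (1 / (2 * C * userDeg adj i : ℝ)) + 1 / 4 * gain adj C T i) else
            T * (C * userDeg adj i / N)) ≤
          E (D.law T) (fun ω => ∑ t : Fin T, ∑ j with adj i j,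
            D.ystar (D.win ω) j (ω (t, i))) := by
        intro i
        by_cases hi : i ∈ G
        · rw [if_pos hi]; exact D.offline_active T hi
        · rw [if_neg hi]; exact (D.offline_inactive T hi).ge
      refine le_trans (le_of_eq ?_) (Finset.sum_le_sum fun i _ => hlow i)
      rw [Finset.sum_ite]
      -- the inactive part
      have hin : ∑ i with i ∉ G, T * ((C : ℝ) * userDeg adj i / N) =
          T * ∑ j, (C : ℝ) * (nIn G adj j / N) := by
        have : ∀ i, (userDeg adj i : ℝ) = ∑ j, if adj i j then (1 : ℝ) else 0 := by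
          intro i
          rw [userDeg, Finset.sum_boole]
        simp only [this]
        have h3 : ∀ j, (nIn G adj j : ℝ) = ∑ i with i ∉ G, if adj i j then (1 : ℝ) else 0 := by
          intro j
          rw [nIn, Finset.sum_boole, Finset.filter_filter]
        simp only [h3]
        rw [Finset.mul_sum]
        have h4 : ∀ i, (T : ℝ) * (C * (∑ j, if adj i j then (1 : ℝ) else 0) / N) =
            ∑ j, T * (C / N) * if adj i j then (1 : ℝ) else 0 := by
          intro i
          rw [← Finset.mul_sum]
          ring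
        have h5 : ∀ j, (T : ℝ) * (C * ((∑ i with i ∉ G, if adj i j then (1 : ℝ) else 0) / N)) =
            ∑ i with i ∉ G, T * (C / N) * if adj i j then (1 : ℝ) else 0 := by
          intro j
          rw [← Finset.mul_sum]
          ring
        simp only [h4, h5]
        exact Finset.sum_comm
      rw [hin]
      -- the active part
      have hac : ∑ i with i ∈ G, ∑ j with ((∃ i ∈ G, adj i j) ∧ ψ j = i), (C : ℝ) *
            (T * (1 / (2 * C * userDeg adj i : ℝ)) + 1 / 4 * gain adj C T i) =
          ∑ j with (∃ i ∈ G, adj i j), (C : ℝ) *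
            (T * (1 / (2 * C * userDeg adj (ψ j) : ℝ)) + 1 / 4 * gain adj C T (ψ j)) := by
        have h6 : ∀ i, ∑ j with ((∃ i ∈ G, adj i j) ∧ ψ j = i), (C : ℝ) *
            (T * (1 / (2 * C * userDeg adj i : ℝ)) + 1 / 4 * gain adj C T i) =
            ∑ j with (∃ i ∈ G, adj i j), if ψ j = i then (C : ℝ) *
            (T * (1 / (2 * C * userDeg adj (ψ j) : ℝ)) + 1 / 4 * gain adj C T (ψ j)) else 0 := by
          intro i
          rw [← Finset.filter_filter, Finset.sum_filter]
          refine Finset.sum_congr rfl fun j _ => ?_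
          split_ifs with h
          · rw [h]
          · rfl
        simp only [h6]
        rw [Finset.sum_comm]
        refine Finset.sum_congr rfl fun j hj => ?_
        rw [Finset.mem_filter] at hj
        rw [Finset.sum_ite_eq, if_pos]
        simpa using D.hψG j hj.2
      rw [hac, hA, B]
      have h7 : ∑ j, (C : ℝ) * R (ψ := ψ) (C := C) (N := N) (G := G) (adj := adj) j =
          ∑ j, (C : ℝ) * (nIn G adj j / N) +
          ∑ j with (∃ i ∈ G, adj i j), (C : ℝ) * (1 / (2 * C * userDeg adj (ψ j) : ℝ)) := by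
        rw [Finset.sum_filter, ← Finset.sum_add_distrib]
        refine Finset.sum_congr rfl fun j _ => ?_
        unfold R
        split_ifs
        · ring
        · ring
      rw [h7]
      have h8 : ∀ j, (C : ℝ) *
            (T * (1 / (2 * C * userDeg adj (ψ j) : ℝ)) + 1 / 4 * gain adj C T (ψ j)) =
            T * (C * (1 / (2 * C * userDeg adj (ψ j) : ℝ))) +
              C * (1 / 4 * gain adj C T (ψ j)) := by
        intro j; ring
      rw [Finset.sum_congr rfl fun j (_ : j ∈ univ.filter fun j => ∃ i ∈ G, adj i j) => h8 j,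
        Finset.sum_add_distrib, ← Finset.mul_sum
          (univ.filter fun j => ∃ i ∈ G, adj i j)
          (fun j => (C : ℝ) * (1 / (2 * C * userDeg adj (ψ j) : ℝ))) (T : ℝ)]
      generalize ∑ j, (C : ℝ) * (nIn G adj j / N) = a1
      generalize ∑ j with (∃ i ∈ G, adj i j), (C : ℝ) * (1 / (2 * C * userDeg adj (ψ j) : ℝ)) = a2
      generalize ∑ j with (∃ i ∈ G, adj i j), (C : ℝ) * (1 / 4 * gain adj C T (ψ j)) = a3
      ring
    linarith
  obtain ⟨ω, hω⟩ := E_exists (D.law_nonneg T) (D.law_sum T) hkey
  exact ⟨fun t i => ω (t, i), D.ystar (D.win ω), D.ystar_config _, hω⟩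

end Adversary

end Pool.Agent.Helper86.Caching
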