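import Mathlib
import Pool.Agent.Helper86.Caching.Lower

namespace Pool.Agent.Helper86.Caching

set_option linter.unusedSectionVars false

open Finset

variable {I J : Type} [Fintype I] [Fintype J]
  (adj : I → J → Prop) [∀ i j, Decidable (adj i j)]

lemma reward_le {N : ℕ} (x : I → Fin N) (y : J → Fin N → ℝ) :
    reward adj x y ≤ Fintype.card I := by
  unfold reward
  calc ∑ i, min 1 (∑ j with adj i j, y j (x i)) ≤ ∑ _i : I, (1 : ℝ) :=
        Finset.sum_le_sum fun i _ => min_le_left _ _
    _ = Fintype.card I := by simp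

lemma bddAbove_inner {N C T : ℕ} (x : Fin T → I → Fin N) :
    BddAbove (Set.range fun y : {y : J → Fin N → ℝ // IsConfig C y} =>
      ∑ t, reward adj (x t) y.1) := by
  refine ⟨T * Fintype.card I, ?_⟩
  rintro _ ⟨y, rfl⟩
  calc ∑ t, reward adj (x t) y.1 ≤ ∑ _t : Fin T, (Fintype.card I : ℝ) :=
        Finset.sum_le_sum fun t _ => reward_le adj _ _
    _ = T * Fintype.card I := by simp

lemma le_regret {N C T : ℕ} (π : Policy I J N C) (x : Fin T → I → Fin N) (y : J → Fin N → ℝ)
    (hy : IsConfig C y) :
    ∑ t : Fin T, reward adj (x t) y -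
      ∑ t : Fin T, reward adj (x t) (π.play t fun s => x ⟨s, s.2.trans t.2⟩) ≤
    regret adj T π := by
  unfold regret
  refine le_trans ?_ (le_ciSup (Set.finite_range _).bddAbove x)
  have := le_ciSup (bddAbove_inner adj (C := C) x) ⟨y, hy⟩
  linarith

lemma sum_userDeg {d : ℕ} (hreg : ∀ j, #{i | adj i j} = d) :
    ∑ i, userDeg adj i = d * Fintype.card J := by
  classical
  have h1 : ∀ i, userDeg adj i = ∑ j, if adj i j then 1 else 0 := by
    intro i; rw [userDeg, Finset.card_filter]
  have h2 : ∀ j, d = ∑ i, if adj i j then 1 else 0 := by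
    intro j; rw [← hreg j, Finset.card_filter]
  simp only [h1]
  rw [Finset.sum_comm, ← Finset.sum_congr rfl fun j _ => h2 j]
  simp [mul_comm]

/-- per-unit value of a user -/
noncomputable def val (C T : ℕ) (i : I) : ℝ :=
  min (T : ℝ) (Real.sqrt (C * T * userDeg adj i)) / userDeg adj i

lemma val_nonneg (C T : ℕ) (i : I) : 0 ≤ val adj C T i := by
  unfold val
  positivity

lemma C_mul_gain {C T : ℕ} (hC : 0 < C) {i : I} (hi : 0 < userDeg adj i) :
    (C : ℝ) * Adversary.gain adj C T i = val adj C T i := by
  have h1 : (0 : ℝ) < C := by exact_mod_cast hC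
  have h2 : (0 : ℝ) < userDeg adj i := by exact_mod_cast hi
  unfold Adversary.gain val
  rw [mul_min_of_nonneg _ _ h1.le, ← min_div_div_right h2.le]
  congr 1
  · field_simp
  · rw [eq_div_iff h2.ne']
    have e1 : (C : ℝ) * Real.sqrt (T * (1 / (C * userDeg adj i))) * userDeg adj i =
        Real.sqrt ((C * userDeg adj i) ^ 2) * Real.sqrt (T * (1 / (C * userDeg adj i))) := by
      rw [Real.sqrt_sq (by positivity)]
      ring
    rw [e1, ← Real.sqrt_mul (by positivity)]
    congr 1
    field_simp

lemma val_anti {C T : ℕ} {i i' : I} (hi : 0 < userDeg adj i)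
    (h : userDeg adj i ≤ userDeg adj i') : val adj C T i' ≤ val adj C T i := by
  have h2 : (0 : ℝ) < userDeg adj i := by exact_mod_cast hi
  have h3 : (userDeg adj i : ℝ) ≤ userDeg adj i' := by exact_mod_cast h
  have h4 : (0 : ℝ) < userDeg adj i' := h2.trans_le h3
  unfold val
  rw [← min_div_div_right h2.le, ← min_div_div_right h4.le]
  apply min_le_min
  · exact div_le_div_of_nonneg_left (by positivity) h2 h3
  · -- √(c x) / x is antitone
    have key : ∀ x : ℝ, 0 < x → Real.sqrt (C * T * x) / x = Real.sqrt (C * T / x) := by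
      intro x hx
      rw [div_eq_iff hx.ne']
      have : Real.sqrt (C * T / x) * x = Real.sqrt (C * T / x) * Real.sqrt (x ^ 2) := by
        rw [Real.sqrt_sq hx.le]
      rw [this, ← Real.sqrt_mul (by positivity)]
      congr 1
      field_simp
    rw [key _ h4, key _ h2]
    apply Real.sqrt_le_sqrt
    exact div_le_div_of_nonneg_left (by positivity) h2 h3

theorem lower_bound {d C N T : ℕ} (hd : 0 < d) (hC : 0 < C) (hJ : 0 < Fintype.card J)
    (hreg : ∀ j, #{i | adj i j} = d) (hN : 2 * C * Fintype.card J ≤ N) (π : Policy I J N C) :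
    1 / (8 * (d : ℝ) ^ 2) * ∑ i, min (T : ℝ) (Real.sqrt (C * T * userDeg adj i)) ≤
      regret adj T π := by
  classical
  have hd' : (0 : ℝ) < d := by exact_mod_cast hd
  -- the neighbour of smallest degree
  have hφ : ∀ j, ∃ i, adj i j ∧ ∀ i', adj i' j → userDeg adj i ≤ userDeg adj i' := by
    intro j
    have hne : (univ.filter fun i => adj i j).Nonempty := by
      rw [← Finset.card_pos, hreg j]; exact hd
    obtain ⟨i, hi, hmin⟩ := Finset.exists_min_image _ (fun i => userDeg adj i) hne
    refine ⟨i, by simpa using hi, fun i' hi' => hmin i' (by simpa using hi')⟩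
  choose φ hφadj hφmin using hφ
  have hpos : ∀ i j, adj i j → 0 < userDeg adj i := by
    intro i j hij
    exact Finset.card_pos.mpr ⟨j, by simpa using hij⟩
  let S : Finset I := univ.filter fun i => 0 < userDeg adj i
  let vv : I → ℝ := fun i => ∑ j with φ j = i, val adj C T i
  have hSdeg : ∑ i ∈ S, userDeg adj i ≤ d * Fintype.card J := by
    rw [← sum_userDeg adj hreg]
    exact Finset.sum_le_sum_of_subset (Finset.subset_univ _)
  have hdegJ : ∀ i, userDeg adj i ≤ Fintype.card J := fun i => Finset.card_le_univ _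
  obtain ⟨G, hGS, hGW, hGv⟩ := knapsack_exists (fun i => userDeg adj i) vv (Fintype.card J)
    hdegJ d hd S hSdeg
  have hGdeg : ∀ i ∈ G, 0 < userDeg adj i := fun i hi => by
    have := hGS hi
    simpa [S] using this
  -- sum over S
  have hsumS : ∑ i ∈ S, vv i = ∑ j, val adj C T (φ j) := by
    have h1 : ∀ i, vv i = ∑ j, if φ j = i then val adj C T (φ j) else 0 := by
      intro i
      simp only [vv]
      rw [Finset.sum_filter]
      refine Finset.sum_congr rfl fun j _ => ?_
      split_ifs with h
      · rw [h]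
      · rfl
    simp only [h1]
    rw [Finset.sum_comm]
    refine Finset.sum_congr rfl fun j _ => ?_
    rw [Finset.sum_ite_eq, if_pos]
    simp only [S, Finset.mem_filter, Finset.mem_univ, true_and]
    exact hpos _ j (hφadj j)
  have hsumAll : ∑ i, min (T : ℝ) (Real.sqrt (C * T * userDeg adj i)) ≤
      d * ∑ j, val adj C T (φ j) := by
    have h1 : ∀ i, min (T : ℝ) (Real.sqrt (C * T * userDeg adj i)) =
        ∑ j, if adj i j then val adj C T i else 0 := by
      intro i
      rw [← Finset.sum_filter, Finset.sum_const, nsmul_eq_mul]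
      change _ = (userDeg adj i : ℝ) * val adj C T i
      unfold val
      by_cases h0 : userDeg adj i = 0
      · simp [h0]
      · have : (userDeg adj i : ℝ) ≠ 0 := by exact_mod_cast h0
        field_simp
    simp only [h1]
    rw [Finset.sum_comm, Finset.mul_sum]
    refine Finset.sum_le_sum fun j _ => ?_
    rw [← Finset.sum_filter]
    calc ∑ i with adj i j, val adj C T i ≤ ∑ i with adj i j, val adj C T (φ j) := by
          refine Finset.sum_le_sum fun i hi => ?_
          have hij : adj i j := by simpa using hi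
          exact val_anti adj (hpos _ j (hφadj j)) (hφmin j i hij)
      _ = d * val adj C T (φ j) := by
          rw [Finset.sum_const, nsmul_eq_mul, hreg j]
  -- the map ψ
  have hψ : ∀ j, ∃ i, (∃ i ∈ G, adj i j) →
      (i ∈ G ∧ adj i j ∧ ∀ i' ∈ G, adj i' j → userDeg adj i ≤ userDeg adj i') := by
    intro j
    by_cases hact : ∃ i ∈ G, adj i j
    · have hne : (G.filter fun i => adj i j).Nonempty := by
        obtain ⟨i, hi, hij⟩ := hact
        exact ⟨i, by simp [hi, hij]⟩
      obtain ⟨i, hi, hmin⟩ := Finset.exists_min_image _ (fun i => userDeg adj i) hne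
      rw [Finset.mem_filter] at hi
      exact ⟨i, fun _ => ⟨hi.1, hi.2, fun i' hi' hij' => hmin i' (by simp [hi', hij'])⟩⟩
    · exact ⟨φ j, fun h => absurd h hact⟩
  choose ψ hψspec using hψ
  -- names of files
  have hNpos : 0 < N := lt_of_lt_of_le (by positivity) hN
  let A : Finset (I × (J × Fin C × Bool)) := univ.filter fun q => q.1 ∈ G ∧ adj q.1 q.2.1
  have hAcard : A.card ≤ N := by
    have h1 : A.card = ∑ i ∈ G, 2 * C * userDeg adj i := by
      have h2 : A = (G.sigma (fun i => univ.filter fun q : J × Fin C × Bool => adj i q.1)).map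
          (Equiv.sigmaEquivProd I (J × Fin C × Bool)).toEmbedding := by
        ext ⟨i, q⟩
        simp only [A, Finset.mem_filter, Finset.mem_univ, true_and, Finset.mem_map,
          Finset.mem_sigma, Equiv.coe_toEmbedding, Equiv.sigmaEquivProd_apply, Sigma.exists]
        constructor
        · rintro ⟨h1, h2⟩
          exact ⟨i, q, ⟨h1, h2⟩, rfl⟩
        · rintro ⟨i', q', ⟨h1, h2⟩, h3⟩
          simp only [Prod.mk.injEq] at h3
          obtain ⟨rfl, rfl⟩ := h3
          exact ⟨h1, h2⟩
      rw [h2, Finset.card_map, Finset.card_sigma]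
      refine Finset.sum_congr rfl fun i _ => ?_
      have : (univ.filter fun q : J × Fin C × Bool => adj i q.1) =
          (univ.filter fun j : J => adj i j) ×ˢ (univ : Finset (Fin C × Bool)) := by
        ext q
        simp
      rw [this, Finset.card_product, userDeg]
      simp
      ring
    rw [h1, ← Finset.mul_sum]
    exact (Nat.mul_le_mul_left _ hGW).trans hN
  have hemb : Nonempty (A ↪ Fin N) := Function.Embedding.nonempty_of_card_le (by simpa using hAcard)
  obtain ⟨emb⟩ := hemb
  let e : I → J × Fin C × Bool → Fin N := fun i q =>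
    if h : (i, q) ∈ A then emb ⟨(i, q), h⟩ else ⟨0, hNpos⟩
  let D : Adversary adj G ψ C N :=
    { e := e
      inj := by
        intro i hi i' hi' q q' hq hq' h
        have h1 : (i, q) ∈ A := by simp [A, hi, hq]
        have h2 : (i', q') ∈ A := by simp [A, hi', hq']
        simp only [e, h1, h2, dif_pos] at h
        have := emb.injective h
        simpa using this
      hdeg := hGdeg
      hψG := fun j hj => (hψspec j hj).1
      hψadj := fun j hj => (hψspec j hj).2.1
      hψmin := fun j i hi hij => (hψspec j ⟨i, hi, hij⟩).2.2 i hi hij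
      hC := hC
      hN := hNpos
      hJN := by
        calc Fintype.card J * C ≤ 2 * C * Fintype.card J := by nlinarith
          _ ≤ N := hN }
  obtain ⟨x, y, hy, hbad⟩ := D.exists_bad T π
  have hreg' := le_regret adj π x y hy
  -- compare the sums
  have hcmp : 1 / 4 * ∑ i ∈ G, vv i ≤
      ∑ j with (∃ i ∈ G, adj i j), (C : ℝ) * (1 / 4 * Adversary.gain adj C T (ψ j)) := by
    have h1 : ∑ i ∈ G, vv i = ∑ j, if φ j ∈ G then val adj C T (φ j) else 0 := by
      have h1 : ∀ i, vv i = ∑ j, if φ j = i then val adj C T (φ j) else 0 := by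
        intro i
        simp only [vv]
        rw [Finset.sum_filter]
        refine Finset.sum_congr rfl fun j _ => ?_
        split_ifs with h
        · rw [h]
        · rfl
      simp only [h1]
      rw [Finset.sum_comm]
      refine Finset.sum_congr rfl fun j _ => ?_
      rw [Finset.sum_ite_eq]
    rw [h1, Finset.sum_filter, Finset.mul_sum]
    refine Finset.sum_le_sum fun j _ => ?_
    by_cases hact : ∃ i ∈ G, adj i j
    · rw [if_pos hact]
      obtain ⟨s1, s2, s3⟩ := hψspec j hact
      have h3 : (C : ℝ) * (1 / 4 * Adversary.gain adj C T (ψ j)) = 1 / 4 * val adj C T (ψ j) := by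
        rw [← C_mul_gain adj hC (hGdeg _ s1)]
        ring
      rw [h3]
      split_ifs with hG
      · have := val_anti (C := C) (T := T) adj (hGdeg _ s1) (s3 (φ j) hG (hφadj j))
        linarith
      · have := val_nonneg adj C T (ψ j)
        linarith
    · rw [if_neg hact, if_neg]
      · simp
      · intro h
        exact hact ⟨φ j, h, hφadj j⟩
  have hfin : 1 / (8 * (d : ℝ) ^ 2) * ∑ i, min (T : ℝ) (Real.sqrt (C * T * userDeg adj i)) ≤
      1 / 4 * ∑ i ∈ G, vv i := by
    rw [hsumS] at hGv
    have h1 : ∑ i, min (T : ℝ) (Real.sqrt (C * T * userDeg adj i)) ≤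
        d * (2 * d * ∑ i ∈ G, vv i) :=
      hsumAll.trans (mul_le_mul_of_nonneg_left hGv hd'.le)
    calc 1 / (8 * (d : ℝ) ^ 2) * ∑ i, min (T : ℝ) (Real.sqrt (C * T * userDeg adj i))
        ≤ 1 / (8 * (d : ℝ) ^ 2) * (d * (2 * d * ∑ i ∈ G, vv i)) :=
          mul_le_mul_of_nonneg_left h1 (by positivity)
      _ = 1 / 4 * ∑ i ∈ G, vv i := by
          field_simp
          ring
  linarith

end Pool.Agent.Helper86.Caching
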