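import Mathlib
import Pool.Agent.Helper86.Caching.LowerFinal

namespace Pool.Agent.Helper86.Caching

set_option linter.unusedSectionVars false

open Finset

section OGA

variable {V : Type*} [NormedAddCommGroup V] [InnerProductSpace ℝ V] {α : Type*}

/-- iterates of projected gradient ascent as a function of the history -/
noncomputable def iter (P : V → V) (η : ℝ) (g : α → V) : (t : ℕ) → (Fin t → α) → V
  | 0, _ => 0
  | t + 1, h => P (iter P η g t (fun s => h s.castSucc) + η • g (h (Fin.last t)))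

lemma iter_mem {K : Set V} (h0 : (0 : V) ∈ K) {P : V → V} (hPK : ∀ v, P v ∈ K) (η : ℝ)
    (g : α → V) (t : ℕ) (h : Fin t → α) : iter P η g t h ∈ K := by
  cases t with
  | zero => exact h0
  | succ t => exact hPK _

lemma oga {K : Set V} {P : V → V} (hP : ∀ v, ∀ w ∈ K, ‖P v - w‖ ^ 2 ≤ ‖v - w‖ ^ 2) (η : ℝ)
    (g : α → V) (G2 : ℝ) (hg : ∀ a, ‖g a‖ ^ 2 ≤ G2) {w : V} (hw : w ∈ K) :
    ∀ (t : ℕ) (h : Fin t → α),
      2 * η * ∑ s : Fin t, inner ℝ (g (h s)) (w - iter P η g s fun r => h ⟨r, r.2.trans s.2⟩) ≤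
        ‖w‖ ^ 2 - ‖iter P η g t h - w‖ ^ 2 + η ^ 2 * (t * G2) := by
  intro t
  induction t with
  | zero =>
    intro h
    simp [iter]
  | succ t ih =>
    intro h
    have ih' := ih (fun s => h s.castSucc)
    rw [Fin.sum_univ_castSucc]
    have hstep : ‖iter P η g (t + 1) h - w‖ ^ 2 ≤
        ‖iter P η g t (fun s => h s.castSucc) + η • g (h (Fin.last t)) - w‖ ^ 2 := hP _ w hw
    set u := iter P η g t (fun s => h s.castSucc) with hu
    set γ := g (h (Fin.last t)) with hγ
    have hexp : ‖u + η • γ - w‖ ^ 2 = ‖u - w‖ ^ 2 + 2 * η * inner ℝ γ (u - w) + η ^ 2 * ‖γ‖ ^ 2 := by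
      have : u + η • γ - w = (u - w) + η • γ := by abel
      rw [this, norm_add_sq_real, inner_smul_right, norm_smul, real_inner_comm]
      rw [mul_pow, Real.norm_eq_abs, sq_abs]
      ring
    have hg' := hg (h (Fin.last t))
    have hlast : inner ℝ (g (h (Fin.last t))) (w - iter P η g (Fin.last t) fun r =>
        h ⟨r, r.2.trans (Fin.last t).2⟩) = - inner ℝ γ (u - w) := by
      rw [← inner_neg_right, neg_sub]
      rfl
    have hsum : ∑ s : Fin t, inner ℝ (g (h s.castSucc)) (w - iter P η g s.castSucc fun r =>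
        h ⟨r, r.2.trans s.castSucc.2⟩) = ∑ s : Fin t, inner ℝ (g (h s.castSucc))
        (w - iter P η g s fun r => h (Fin.castSucc ⟨r, r.2.trans s.2⟩)) := rfl
    rw [hlast, hsum]
    have hη : η ^ 2 * ‖γ‖ ^ 2 ≤ η ^ 2 * G2 := mul_le_mul_of_nonneg_left hg' (sq_nonneg η)
    push_cast
    have : η ^ 2 * ((t + 1 : ℝ) * G2) = η ^ 2 * (t * G2) + η ^ 2 * G2 := by ring
    rw [this]
    rw [hexp] at hstep
    linarith

lemma exists_proj [CompleteSpace V] {K : Set V} (hne : K.Nonempty) (hK : IsClosed K)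
    (hconv : Convex ℝ K) :
    ∃ P : V → V, (∀ v, P v ∈ K) ∧ ∀ v, ∀ w ∈ K, ‖P v - w‖ ^ 2 ≤ ‖v - w‖ ^ 2 := by
  have h : ∀ v : V, ∃ p ∈ K, ∀ w ∈ K, inner ℝ (v - p) (w - p) ≤ 0 := by
    intro v
    obtain ⟨p, hp, hmin⟩ := exists_norm_eq_iInf_of_complete_convex hne hK.isComplete hconv v
    exact ⟨p, hp, (norm_eq_iInf_iff_real_inner_le_zero hconv hp).mp hmin⟩
  choose P hP hP2 using h
  refine ⟨P, hP, fun v w hw => ?_⟩
  have h1 := hP2 v w hw
  have : v - w = (v - P v) + (P v - w) := by abel
  rw [this, norm_add_sq_real]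
  have h2 : inner ℝ (v - P v) (P v - w) = - inner ℝ (v - P v) (w - P v) := by
    rw [← inner_neg_right, neg_sub]
  rw [h2]
  nlinarith [sq_nonneg ‖v - P v‖]

end OGA

variable {I J : Type} [Fintype I] [Fintype J]
  (adj : I → J → Prop) [∀ i j, Decidable (adj i j)]

/-- users handled by the learner -/
def Smart (C T : ℕ) (i : I) : Prop := 0 < userDeg adj i ∧ C * userDeg adj i ≤ T

/-- scaling factor of user `i` -/
noncomputable def sc (i : I) : ℝ := Real.sqrt (Real.sqrt (userDeg adj i))

lemma sc_sq (i : I) : sc adj i ^ 2 = Real.sqrt (userDeg adj i) :=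
  Real.sq_sqrt (Real.sqrt_nonneg _)

lemma sc_pos {i : I} (hi : 0 < userDeg adj i) : 0 < sc adj i := by
  have : (0 : ℝ) < userDeg adj i := by exact_mod_cast hi
  unfold sc
  positivity

lemma sc_nonneg (i : I) : 0 ≤ sc adj i := Real.sqrt_nonneg _

/-- the joint feasible set -/
def Joint (C N T : ℕ) : Set ((J → Fin N → ℝ) × EuclideanSpace ℝ (I × Fin N)) :=
  {p | IsConfig C p.1 ∧ (∀ i f, 0 ≤ p.2 (i, f)) ∧ (∀ i f, sc adj i * p.2 (i, f) ≤ 1) ∧
    (∀ i f, sc adj i * p.2 (i, f) ≤ ∑ j with adj i j, p.1 j f) ∧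
    ∀ i f, ¬ Smart adj C T i → p.2 (i, f) = 0}

/-- the feasible set of scaled coverage vectors -/
def KSet (C N T : ℕ) : Set (EuclideanSpace ℝ (I × Fin N)) :=
  Prod.snd '' Joint adj C N T

/-- sum of the square roots of the degrees of the smart users -/
noncomputable def Atot (C T : ℕ) : ℝ :=
  open Classical in ∑ i with Smart adj C T i, Real.sqrt (userDeg adj i)

lemma norm_sq_le {C N T : ℕ} {p : (J → Fin N → ℝ) × EuclideanSpace ℝ (I × Fin N)}
    (hp : p ∈ Joint adj C N T) : ‖p.2‖ ^ 2 ≤ C * Atot adj C T := by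
  classical
  obtain ⟨hy, h0, h1, h2, h3⟩ := hp
  rw [EuclideanSpace.norm_sq_eq, Fintype.sum_prod_type, Atot, Finset.mul_sum, Finset.sum_filter]
  refine Finset.sum_le_sum fun i _ => ?_
  by_cases hs : Smart adj C T i
  · rw [if_pos hs]
    have hsc := sc_pos adj hs.1
    have hdeg : (0 : ℝ) < userDeg adj i := by exact_mod_cast hs.1
    have hterm : ∀ f, ‖p.2 (i, f)‖ ^ 2 ≤ (∑ j with adj i j, p.1 j f) / sc adj i ^ 2 := by
      intro f
      rw [le_div_iff₀ (by positivity), Real.norm_eq_abs, sq_abs]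
      have e0 := h0 i f
      have e1 := h1 i f
      have e2 := h2 i f
      calc p.2 (i, f) ^ 2 * sc adj i ^ 2 = (sc adj i * p.2 (i, f)) * (sc adj i * p.2 (i, f)) := by
            ring
        _ ≤ 1 * (sc adj i * p.2 (i, f)) :=
            mul_le_mul_of_nonneg_right e1 (by positivity)
        _ ≤ _ := by linarith
    calc ∑ f, ‖p.2 (i, f)‖ ^ 2 ≤ ∑ f, (∑ j with adj i j, p.1 j f) / sc adj i ^ 2 :=
          Finset.sum_le_sum fun f _ => hterm f
      _ = (∑ j with adj i j, ∑ f, p.1 j f) / sc adj i ^ 2 := by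
          rw [← Finset.sum_div, Finset.sum_comm]
      _ ≤ (∑ j with adj i j, (C : ℝ)) / sc adj i ^ 2 := by
          gcongr
          exact hy.2 _
      _ = C * Real.sqrt (userDeg adj i) := by
          rw [Finset.sum_const, nsmul_eq_mul, sc_sq]
          change (userDeg adj i : ℝ) * C / _ = _
          rw [div_eq_iff (by positivity)]
          have := Real.mul_self_sqrt hdeg.le
          linear_combination (-(C : ℝ)) * this
  · rw [if_neg hs]
    apply le_of_eq
    apply Finset.sum_eq_zero
    intro f _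
    rw [h3 i f hs]
    simp

lemma isClosed_joint (C N T : ℕ) : IsClosed (Joint adj C N T) := by
  have hc1 : ∀ j f, Continuous fun p : (J → Fin N → ℝ) × EuclideanSpace ℝ (I × Fin N) =>
      p.1 j f := fun j f => by fun_prop
  have hc2 : ∀ k, Continuous fun p : (J → Fin N → ℝ) × EuclideanSpace ℝ (I × Fin N) =>
      p.2 k := fun k => by fun_prop
  have hset : Joint adj C N T =
      (((⋂ j, ⋂ f, ({p | 0 ≤ p.1 j f} ∩ {p | p.1 j f ≤ 1})) ∩ ⋂ j, {p | ∑ f, p.1 j f ≤ (C : ℝ)}) ∩
      (⋂ i, ⋂ f, {p | 0 ≤ p.2 (i, f)}) ∩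
      (⋂ i, ⋂ f, {p | sc adj i * p.2 (i, f) ≤ 1}) ∩
      (⋂ i, ⋂ f, {p | sc adj i * p.2 (i, f) ≤ ∑ j with adj i j, p.1 j f}) ∩
      (⋂ i, ⋂ f, ⋂ (_ : ¬ Smart adj C T i), {p | p.2 (i, f) = 0})) := by
    ext p
    simp only [Joint, IsConfig, Set.mem_ofPred_eq, Set.mem_inter_iff, Set.mem_iInter]
    tauto
  rw [hset]
  refine IsClosed.inter (IsClosed.inter (IsClosed.inter (IsClosed.inter (IsClosed.inter ?_ ?_) ?_) ?_) ?_) ?_
  · refine isClosed_iInter fun j => isClosed_iInter fun f => IsClosed.inter ?_ ?_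
    · exact isClosed_le continuous_const (hc1 j f)
    · exact isClosed_le (hc1 j f) continuous_const
  · refine isClosed_iInter fun j => ?_
    exact isClosed_le (continuous_finsetSum _ fun f _ => hc1 j f) continuous_const
  · refine isClosed_iInter fun i => isClosed_iInter fun f => ?_
    exact isClosed_le continuous_const (hc2 _)
  · refine isClosed_iInter fun i => isClosed_iInter fun f => ?_
    exact isClosed_le (continuous_const.mul (hc2 _)) continuous_const
  · refine isClosed_iInter fun i => isClosed_iInter fun f => ?_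
    exact isClosed_le (continuous_const.mul (hc2 _)) (continuous_finsetSum _ fun j _ => hc1 j f)
  · refine isClosed_iInter fun i => isClosed_iInter fun f => isClosed_iInter fun _ => ?_
    exact isClosed_eq (hc2 _) continuous_const

lemma isCompact_joint (C N T : ℕ) : IsCompact (Joint adj C N T) := by
  have hbig : IsCompact ((Set.univ.pi fun _ : J => Set.univ.pi fun _ : Fin N => Set.Icc (0 : ℝ) 1) ×ˢ
      (Metric.closedBall (0 : EuclideanSpace ℝ (I × Fin N)) (Real.sqrt (C * Atot adj C T)))) := by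
    apply IsCompact.prod
    · exact isCompact_univ_pi fun _ => isCompact_univ_pi fun _ => isCompact_Icc
    · exact isCompact_closedBall _ _
  refine hbig.of_isClosed_subset (isClosed_joint adj C N T) ?_
  intro p hp
  refine ⟨?_, ?_⟩
  · simp only [Set.mem_pi, Set.mem_univ, forall_const, Set.mem_Icc]
    exact fun j f => hp.1.1 j f
  · rw [Metric.mem_closedBall, dist_zero_right]
    exact Real.le_sqrt_of_sq_le (norm_sq_le adj hp)

lemma convex_joint (C N T : ℕ) : Convex ℝ (Joint adj C N T) := by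
  intro p hp q hq a b ha hb hab
  obtain ⟨hy, h0, h1, h2, h3⟩ := hp
  obtain ⟨hy', h0', h1', h2', h3'⟩ := hq
  refine ⟨⟨fun j f => ⟨?_, ?_⟩, fun j => ?_⟩, fun i f => ?_, fun i f => ?_, fun i f => ?_,
    fun i f hs => ?_⟩
  · simp only [Prod.fst_add, Prod.smul_fst, Pi.add_apply, Pi.smul_apply, smul_eq_mul]
    have := (hy.1 j f).1
    have := (hy'.1 j f).1
    positivity
  · simp only [Prod.fst_add, Prod.smul_fst, Pi.add_apply, Pi.smul_apply, smul_eq_mul]
    have e1 := mul_le_mul_of_nonneg_left (hy.1 j f).2 ha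
    have e2 := mul_le_mul_of_nonneg_left (hy'.1 j f).2 hb
    linarith
  · simp only [Prod.fst_add, Prod.smul_fst, Pi.add_apply, Pi.smul_apply, smul_eq_mul,
      Finset.sum_add_distrib, ← Finset.mul_sum]
    have e1 := mul_le_mul_of_nonneg_left (hy.2 j) ha
    have e2 := mul_le_mul_of_nonneg_left (hy'.2 j) hb
    have : a * (C : ℝ) + b * C = C := by rw [← add_mul, hab, one_mul]
    linarith
  · simp only [Prod.snd_add, Prod.smul_snd, PiLp.add_apply, PiLp.smul_apply, smul_eq_mul]
    have := h0 i f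
    have := h0' i f
    positivity
  · simp only [Prod.snd_add, Prod.smul_snd, PiLp.add_apply, PiLp.smul_apply, smul_eq_mul]
    have e1 := mul_le_mul_of_nonneg_left (h1 i f) ha
    have e2 := mul_le_mul_of_nonneg_left (h1' i f) hb
    nlinarith
  · simp only [Prod.snd_add, Prod.smul_snd, PiLp.add_apply, PiLp.smul_apply, smul_eq_mul,
      Prod.fst_add, Prod.smul_fst, Pi.add_apply, Pi.smul_apply, Finset.sum_add_distrib,
      ← Finset.mul_sum]
    have e1 := mul_le_mul_of_nonneg_left (h2 i f) ha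
    have e2 := mul_le_mul_of_nonneg_left (h2' i f) hb
    nlinarith
  · simp only [Prod.snd_add, Prod.smul_snd, PiLp.add_apply, PiLp.smul_apply, smul_eq_mul,
      h3 i f hs, h3' i f hs, mul_zero, add_zero]

lemma zero_mem_joint (C N T : ℕ) :
    ((0 : J → Fin N → ℝ), (0 : EuclideanSpace ℝ (I × Fin N))) ∈ Joint adj C N T := by
  refine ⟨⟨fun j f => ⟨?_, ?_⟩, fun j => ?_⟩, fun i f => ?_, fun i f => ?_, fun i f => ?_,
    fun i f _ => ?_⟩ <;> simp

lemma exists_config_of_mem {C N T : ℕ} {v : EuclideanSpace ℝ (I × Fin N)}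
    (hv : v ∈ KSet adj C N T) : ∃ y : J → Fin N → ℝ, (y, v) ∈ Joint adj C N T := by
  obtain ⟨p, hp, rfl⟩ := hv
  exact ⟨p.1, hp⟩

/-- gradient of the reward of the smart users in the scaled coverage coordinates -/
noncomputable def grad (C N T : ℕ) (x : I → Fin N) : EuclideanSpace ℝ (I × Fin N) :=
  open Classical in
  WithLp.toLp 2 fun k => if Smart adj C T k.1 ∧ x k.1 = k.2 then sc adj k.1 else 0

lemma inner_grad {C N T : ℕ} (x : I → Fin N) (v : EuclideanSpace ℝ (I × Fin N)) :
    inner ℝ (grad adj C N T x) v =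
      open Classical in ∑ i with Smart adj C T i, sc adj i * v (i, x i) := by
  classical
  rw [PiLp.inner_apply, Fintype.sum_prod_type, Finset.sum_filter]
  refine Finset.sum_congr rfl fun i _ => ?_
  by_cases hs : Smart adj C T i
  · rw [if_pos hs, Finset.sum_eq_single (x i)]
    · simp [grad, hs, mul_comm]
    · intro f _ hf
      simp [grad, hs, Ne.symm hf]
    · simp
  · rw [if_neg hs]
    apply Finset.sum_eq_zero
    intro f _
    simp [grad, hs]

lemma norm_grad {C N T : ℕ} (x : I → Fin N) : ‖grad adj C N T x‖ ^ 2 = Atot adj C T := by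
  classical
  rw [← real_inner_self_eq_norm_sq, inner_grad, Atot]
  refine Finset.sum_congr rfl fun i hi => ?_
  rw [Finset.mem_filter] at hi
  have : grad adj C N T x (i, x i) = sc adj i := by simp [grad, hi.2]
  rw [this, ← sc_sq]
  ring

theorem exists_policy {C N T : ℕ} (hC : 0 < C) (hT : 0 < T) :
    ∃ π : Policy I J N C, ∀ (x : Fin T → I → Fin N) (y : J → Fin N → ℝ), IsConfig C y →
      ∑ t : Fin T, reward adj (x t) y -
        ∑ t : Fin T, reward adj (x t) (π.play t fun s => x ⟨s, s.2.trans t.2⟩) ≤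
      ∑ i, min (T : ℝ) (Real.sqrt (C * T * userDeg adj i)) := by
  classical
  have hC' : (0 : ℝ) < C := by exact_mod_cast hC
  have hT' : (0 : ℝ) < T := by exact_mod_cast hT
  have hKc : IsClosed (KSet adj C N T) :=
    ((isCompact_joint adj C N T).image continuous_snd).isClosed
  have h0K : (0 : EuclideanSpace ℝ (I × Fin N)) ∈ KSet adj C N T :=
    ⟨_, zero_mem_joint adj C N T, rfl⟩
  have hKconv : Convex ℝ (KSet adj C N T) := by
    have := (convex_joint adj C N T).linear_image
      (LinearMap.snd ℝ (J → Fin N → ℝ) (EuclideanSpace ℝ (I × Fin N)))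
    exact this
  obtain ⟨P, hPK, hP⟩ := exists_proj ⟨0, h0K⟩ hKc hKconv
  set η : ℝ := Real.sqrt (C / T) with hη
  have hηpos : 0 < η := Real.sqrt_pos.mpr (by positivity)
  have hmem : ∀ (t : ℕ) (h : Fin t → I → Fin N),
      iter P η (grad adj C N T) t h ∈ KSet adj C N T := fun t h => iter_mem h0K hPK η _ t h
  choose Y hY using fun (t : ℕ) (h : Fin t → I → Fin N) => exists_config_of_mem adj (hmem t h)
  refine ⟨⟨Y, fun t h => (hY t h).1⟩, fun x y hy => ?_⟩
  -- the comparator
  let w : EuclideanSpace ℝ (I × Fin N) := WithLp.toLp 2 fun k =>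
    if Smart adj C T k.1 then min 1 (∑ j with adj k.1 j, y j k.2) / sc adj k.1 else 0
  have hwapp : ∀ i f, w (i, f) =
      if Smart adj C T i then min 1 (∑ j with adj i j, y j f) / sc adj i else 0 := fun i f => rfl
  have hminnn : ∀ i f, 0 ≤ min 1 (∑ j with adj i j, y j f) := fun i f =>
    le_min zero_le_one (Finset.sum_nonneg fun j _ => (hy.1 j f).1)
  have hwJ : (y, w) ∈ Joint adj C N T := by
    refine ⟨hy, fun i f => ?_, fun i f => ?_, fun i f => ?_, fun i f hs => ?_⟩
    · rw [hwapp]
      split_ifs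
      · exact div_nonneg (hminnn i f) (sc_nonneg adj i)
      · exact le_rfl
    · rw [hwapp]
      split_ifs with hs
      · rw [mul_div_cancel₀ _ (sc_pos adj hs.1).ne']
        exact min_le_left _ _
      · simp
    · rw [hwapp]
      split_ifs with hs
      · rw [mul_div_cancel₀ _ (sc_pos adj hs.1).ne']
        exact min_le_right _ _
      · rw [mul_zero]
        exact Finset.sum_nonneg fun j _ => (hy.1 j f).1
    · rw [hwapp, if_neg hs]
  have hwK : w ∈ KSet adj C N T := ⟨_, hwJ, rfl⟩
  have hwn := norm_sq_le adj hwJ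
  have hoga := oga hP η (grad adj C N T) (Atot adj C T) (fun a => (norm_grad adj a).le) hwK T x
  set us : Fin T → EuclideanSpace ℝ (I × Fin N) := fun t =>
    iter P η (grad adj C N T) t fun r => x ⟨r, r.2.trans t.2⟩ with hus
  -- upper bound of the comparator's reward
  have hcomp : ∑ t : Fin T, reward adj (x t) y ≤
      ∑ t : Fin T, inner ℝ (grad adj C N T (x t)) w +
        ∑ i with ¬ Smart adj C T i, min (T : ℝ) (Real.sqrt (C * T * userDeg adj i)) := by
    have h1 : ∀ t, reward adj (x t) y = inner ℝ (grad adj C N T (x t)) w +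
        ∑ i with ¬ Smart adj C T i, min 1 (∑ j with adj i j, y j (x t i)) := by
      intro t
      rw [inner_grad, reward, ← Finset.sum_filter_add_sum_filter_not univ (Smart adj C T)]
      congr 1
      refine Finset.sum_congr rfl fun i hi => ?_
      rw [Finset.mem_filter] at hi
      rw [hwapp, if_pos hi.2, mul_div_cancel₀ _ (sc_pos adj hi.2.1).ne']
    simp only [h1, Finset.sum_add_distrib]
    rw [add_le_add_iff_left, Finset.sum_comm]
    refine Finset.sum_le_sum fun i hi => ?_
    rw [Finset.mem_filter] at hi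
    have hns := hi.2
    by_cases hd : 0 < userDeg adj i
    · have hlt : T < C * userDeg adj i := by
        by_contra hcon
        push Not at hcon
        exact hns ⟨hd, hcon⟩
      have hlt' : (T : ℝ) ≤ C * userDeg adj i := by exact_mod_cast hlt.le
      have hmin : min (T : ℝ) (Real.sqrt (C * T * userDeg adj i)) = T := by
        apply min_eq_left
        apply Real.le_sqrt_of_sq_le
        nlinarith
      rw [hmin]
      calc ∑ t : Fin T, min 1 (∑ j with adj i j, y j (x t i)) ≤ ∑ _t : Fin T, (1 : ℝ) :=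
            Finset.sum_le_sum fun t _ => min_le_left _ _
        _ = T := by simp
    · have hd0 : userDeg adj i = 0 := by omega
      have hempty : (univ.filter fun j => adj i j) = ∅ := Finset.card_eq_zero.mp hd0
      simp [hempty, hd0]
  -- lower bound of the policy's reward
  have hpol : ∑ t : Fin T, inner ℝ (grad adj C N T (x t)) (us t) ≤
      ∑ t : Fin T, reward adj (x t) (Y t fun s => x ⟨s, s.2.trans t.2⟩) := by
    refine Finset.sum_le_sum fun t _ => ?_
    rw [inner_grad, reward]
    have hJt := hY t fun s => x ⟨s, s.2.trans t.2⟩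
    obtain ⟨hcfg, -, e1, e2, -⟩ := hJt
    calc ∑ i with Smart adj C T i, sc adj i * us t (i, x t i) ≤
        ∑ i with Smart adj C T i, min 1 (∑ j with adj i j,
          (Y t fun s => x ⟨s, s.2.trans t.2⟩) j (x t i)) :=
          Finset.sum_le_sum fun i _ => le_min (e1 i (x t i)) (e2 i (x t i))
      _ ≤ ∑ i, min 1 (∑ j with adj i j,
          (Y t fun s => x ⟨s, s.2.trans t.2⟩) j (x t i)) := by
          refine Finset.sum_le_sum_of_subset_of_nonneg (Finset.filter_subset _ _) fun i _ _ => ?_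
          exact le_min zero_le_one (Finset.sum_nonneg fun j _ => (hcfg.1 j _).1)
  -- the regret in the coverage space
  have hsum : ∑ t : Fin T, inner ℝ (grad adj C N T (x t)) w -
      ∑ t : Fin T, inner ℝ (grad adj C N T (x t)) (us t) =
      ∑ s : Fin T, inner ℝ (grad adj C N T (x s)) (w - us s) := by
    rw [← Finset.sum_sub_distrib]
    refine Finset.sum_congr rfl fun t _ => ?_
    rw [inner_sub_right]
  have hη2 : η ^ 2 = C / T := Real.sq_sqrt (by positivity)
  have hA0 : 0 ≤ Atot adj C T := Finset.sum_nonneg fun i _ => Real.sqrt_nonneg _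
  have hbound : ∑ s : Fin T, inner ℝ (grad adj C N T (x s)) (w - us s) ≤
      Real.sqrt (C * T) * Atot adj C T := by
    have h1 : 2 * η * ∑ s : Fin T, inner ℝ (grad adj C N T (x s)) (w - us s) ≤
        2 * η * (Real.sqrt (C * T) * Atot adj C T) := by
      have h2 : η * Real.sqrt (C * T) = C := by
        rw [hη, ← Real.sqrt_mul (by positivity)]
        have : (C : ℝ) / T * (C * T) = C ^ 2 := by field_simp
        rw [this, Real.sqrt_sq hC'.le]
      have h3 : η ^ 2 * (T * Atot adj C T) = C * Atot adj C T := by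
        rw [hη2]; field_simp
      have h4 : 2 * η * (Real.sqrt (C * T) * Atot adj C T) = 2 * (C * Atot adj C T) := by
        calc 2 * η * (Real.sqrt (C * T) * Atot adj C T)
            = 2 * ((η * Real.sqrt (C * T)) * Atot adj C T) := by ring
          _ = 2 * (C * Atot adj C T) := by rw [h2]
      rw [h4]
      have h5 := sq_nonneg ‖iter P η (grad adj C N T) T x - w‖
      have h6 : 2 * η * ∑ s : Fin T, inner ℝ (grad adj C N T (x s)) (w - us s) ≤
        ‖w‖ ^ 2 - ‖iter P η (grad adj C N T) T x - w‖ ^ 2 + η ^ 2 * (T * Atot adj C T) := hoga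
      linarith
    exact le_of_mul_le_mul_left h1 (by positivity)
  have hsmart : Real.sqrt (C * T) * Atot adj C T =
      ∑ i with Smart adj C T i, min (T : ℝ) (Real.sqrt (C * T * userDeg adj i)) := by
    rw [Atot, Finset.mul_sum]
    refine Finset.sum_congr rfl fun i hi => ?_
    rw [Finset.mem_filter] at hi
    have hle : (C : ℝ) * userDeg adj i ≤ T := by exact_mod_cast hi.2.2
    have hle2 : Real.sqrt (C * T * userDeg adj i) ≤ T := by
      rw [Real.sqrt_le_left hT'.le]
      nlinarith
    rw [min_eq_right hle2, Real.sqrt_mul (by positivity) (userDeg adj i : ℝ)]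
  have hsplit := Finset.sum_filter_add_sum_filter_not univ (Smart adj C T)
    (fun i => min (T : ℝ) (Real.sqrt (C * T * userDeg adj i)))
  change ∑ t : Fin T, reward adj (x t) y -
        ∑ t : Fin T, reward adj (x t) (Y t fun s => x ⟨s, s.2.trans t.2⟩) ≤ _
  linarith

theorem upper_bound {C N T : ℕ} (hC : 0 < C) (hT : 0 < T) :
    ∃ π : Policy I J N C, regret adj T π ≤
      ∑ i, min (T : ℝ) (Real.sqrt (C * T * userDeg adj i)) := by
  obtain ⟨π, hπ⟩ := exists_policy adj (N := N) hC hT
  refine ⟨π, ?_⟩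
  unfold regret
  have hnn : 0 ≤ ∑ i, min (T : ℝ) (Real.sqrt (C * T * userDeg adj i)) := by positivity
  apply Real.iSup_le _ hnn
  intro x
  have : Nonempty {y : J → Fin N → ℝ // IsConfig C y} :=
    ⟨⟨0, (zero_mem_joint adj C N T).1⟩⟩
  rw [sub_le_iff_le_add]
  apply ciSup_le
  intro y
  have := hπ x y.1 y.2
  linarith

end Pool.Agent.Helper86.Caching
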